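import Mathlib.Topology.Sheaves.Presheaf
import Mathlib.Tactic.Monotonicity.Lemmas
import Mathlib.RingTheory.Flat.TorsionFree
import Mathlib.MeasureTheory.Integral.Bochner.Set
import Mathlib.Analysis.InnerProductSpace.Basic
import Mathlib.Algebra.Order.Star.Real
import Mathlib.Algebra.Ring.IsFormallyReal
import Mathlib.Analysis.Calculus.MeanValue
import Mathlib.Analysis.SpecialFunctions.Sqrt
import Mathlib.RingTheory.PiTensorProduct
import Mathlib.RingTheory.TotallySplit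
import Mathlib.RingTheory.Etale.Weakly

-- ======== part 0: formerly Pool.Agent.MP_2a44fd_gt.Basic
section MrgPart0

/-!
Planar core for the fifth Busemann-Petty problem with two rotation blocks: basic set-up.
-/

set_option autoImplicit false
set_option linter.unusedSectionVars false

open MeasureTheory Real Set Filter Topology

namespace Pool.Agent.MP_2a44fd_gt

/-- The squared gauge in the variables `X = x₁²`, `Y = x₂²`. -/
noncomputable def Fq (N : ℝ → ℝ → ℝ) (X Y : ℝ) : ℝ := N (√X) (√Y) ^ 2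

/-- The Gaussian form of the section function, in the variables `P = α²`, `Q = β²`. -/
noncomputable def Av {Ω : Type*} [MeasurableSpace Ω] (μ : Measure Ω) (s A B : Ω → ℝ)
    (N : ℝ → ℝ → ℝ) (P Q : ℝ) : ℝ :=
  ∫ y, exp (-(Fq N (Q * s y ^ 2 + A y) (P * s y ^ 2 + B y))) ∂μ

/-- All data and hypotheses of the planar core argument. -/
structure Setup (Ω : Type*) [TopologicalSpace Ω] [MeasurableSpace Ω] where
  μ : Measure Ω
  s : Ω → ℝ
  A : Ω → ℝ
  B : Ω → ℝ
  N : ℝ → ℝ → ℝ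
  c : ℝ
  c1 : ℝ
  c2 : ℝ
  openPos : μ.IsOpenPosMeasure
  cs : Continuous s
  cA : Continuous A
  cB : Continuous B
  A0 : ∀ y, 0 ≤ A y
  B0 : ∀ y, 0 ≤ B y
  surj : ∀ σ a : ℝ, 0 ≤ a → ∃ y, s y = σ ∧ A y = a ∧ B y = 0
  gauss : ∀ k : ℝ, 0 < k → Integrable (fun y => exp (-(k * (s y ^ 2 + A y + B y)))) μ
  cN : Continuous (fun p : ℝ × ℝ => N p.1 p.2)
  hom : ∀ r x y : ℝ, 0 ≤ r → N (r * x) (r * y) = r * N x y
  N0 : ∀ x y, 0 ≤ N x y
  cpos : 0 < c
  c1pos : 0 < c1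
  c2pos : 0 < c2
  lower : ∀ x y, c1 ^ 2 * (x ^ 2 + y ^ 2) ≤ N x y ^ 2
  upper : ∀ x y, N x y ^ 2 ≤ c2 ^ 2 * (x ^ 2 + y ^ 2)
  avHom : ∀ r P Q : ℝ, 0 < r → 0 ≤ P → 0 ≤ Q → 0 < P + Q →
    Av μ s A B N (r ^ 2 * P) (r ^ 2 * Q) = Av μ s A B N P Q / r
  t1 : ∀ α β x y : ℝ, 0 ≤ α → 0 ≤ β → α ^ 2 + β ^ 2 = 1 → 0 ≤ x → 0 ≤ y →
    (α * x + β * y) * Av μ s A B N (α ^ 2) (β ^ 2) ≤ c * N x y
  t2 : ∀ x y r : ℝ, 0 ≤ x → 0 ≤ y → 0 < x + y → 1 < r →
    ∃ α β : ℝ, 0 ≤ α ∧ 0 ≤ β ∧ α ^ 2 + β ^ 2 = 1 ∧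
      c * N x y ≤ r * ((α * x + β * y) * Av μ s A B N (α ^ 2) (β ^ 2))

theorem dini {f : ℝ → ℝ} {T m : ℝ} (hT : 0 ≤ T) (hf : ContinuousOn f (Icc 0 T))
    (h : ∀ τ ∈ Ico 0 T, ∃ G : ℝ → ℝ, ∃ d, HasDerivAt G d τ ∧ m ≤ d ∧ G τ = f τ ∧
      ∀ z, G z ≤ f z) : f 0 + m * T ≤ f T := by
  have key := image_le_of_liminf_slope_right_le_deriv_boundary (f := fun z => -f z) (a := 0)
    (b := T) hf.neg (B := fun z => -f 0 - m * z) (B' := fun _ => -m) (by simp)
    (by fun_prop) (fun x _ => by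
      have : HasDerivAt (fun z : ℝ => -f 0 - m * z) (-m) x :=
        (((hasDerivAt_id x).const_mul m).const_sub (-f 0)).congr_deriv (by simp)
      exact this.hasDerivWithinAt)
    (fun x hx r hr => by
      obtain ⟨G, d, hG, hmd, hGx, hGf⟩ := h x hx
      have h1 : Tendsto (slope G x) (𝓝[>] x) (𝓝 d) :=
        (hasDerivAt_iff_tendsto_slope.1 hG).mono_left
          (nhdsWithin_mono _ (fun z hz => ne_of_gt hz))
      have h2 : ∀ᶠ z in 𝓝[>] x, -r < slope G x z :=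
        h1.eventually (lt_mem_nhds (by linarith))
      refine Eventually.frequently ?_
      filter_upwards [h2, self_mem_nhdsWithin] with z hz hzx
      have hzx' : 0 < z - x := sub_pos.2 hzx
      rw [slope_def_field] at hz ⊢
      rw [div_lt_iff₀ hzx']
      rw [lt_div_iff₀ hzx'] at hz
      have := hGf z
      linarith)
    (x := T) ⟨hT, le_rfl⟩
  linarith

namespace Setup

variable {Ω : Type*} [TopologicalSpace Ω] [MeasurableSpace Ω] [BorelSpace Ω] (S : Setup Ω)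

/-- The section function of a set-up. -/
noncomputable abbrev av (P Q : ℝ) : ℝ := Av S.μ S.s S.A S.B S.N P Q

/-- The squared gauge of a set-up. -/
noncomputable abbrev F (X Y : ℝ) : ℝ := Fq S.N X Y

/-- squared norm on the parameter space -/
noncomputable abbrev rho (y : Ω) : ℝ := S.s y ^ 2 + S.A y + S.B y

theorem contF : Continuous (fun p : ℝ × ℝ => S.F p.1 p.2) := by
  have h1 : Continuous (fun p : ℝ × ℝ => ((√p.1, √p.2) : ℝ × ℝ)) := by fun_prop
  exact (S.cN.comp h1).pow 2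

theorem F_lower {X Y : ℝ} (hX : 0 ≤ X) (hY : 0 ≤ Y) : S.c1 ^ 2 * (X + Y) ≤ S.F X Y := by
  have := S.lower (√X) (√Y)
  rwa [sq_sqrt hX, sq_sqrt hY] at this

theorem F_upper {X Y : ℝ} (hX : 0 ≤ X) (hY : 0 ≤ Y) : S.F X Y ≤ S.c2 ^ 2 * (X + Y) := by
  have := S.upper (√X) (√Y)
  rwa [sq_sqrt hX, sq_sqrt hY] at this

theorem N_ge_left (x y : ℝ) : S.c1 * x ≤ S.N x y := by
  have h := S.lower x y
  apply le_of_sq_le_sq _ (S.N0 x y)
  nlinarith [sq_nonneg (S.c1 * y)]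

theorem N_ge_right (x y : ℝ) : S.c1 * y ≤ S.N x y := by
  have h := S.lower x y
  apply le_of_sq_le_sq _ (S.N0 x y)
  nlinarith [sq_nonneg (S.c1 * x)]

theorem N_one_zero : S.N 1 0 ≤ S.c2 := by
  have h := S.upper 1 0
  apply le_of_sq_le_sq _ S.c2pos.le
  simpa using h

theorem N_zero_one : S.N 0 1 ≤ S.c2 := by
  have h := S.upper 0 1
  apply le_of_sq_le_sq _ S.c2pos.le
  simpa using h

theorem rho_nonneg (y : Ω) : 0 ≤ S.rho y := by
  have := S.A0 y; have := S.B0 y; unfold rho; positivity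

theorem F_arg_lower {P Q k : ℝ} (hP : 0 ≤ P) (hQ : 0 ≤ Q) (hk1 : k ≤ 1) (hk : k ≤ P + Q) (y : Ω) :
    S.c1 ^ 2 * k * S.rho y ≤ S.F (Q * S.s y ^ 2 + S.A y) (P * S.s y ^ 2 + S.B y) := by
  have hA := S.A0 y
  have hB := S.B0 y
  have hs := sq_nonneg (S.s y)
  refine le_trans ?_ (S.F_lower (by positivity) (by positivity))
  rw [mul_assoc]
  refine mul_le_mul_of_nonneg_left ?_ (sq_nonneg _)
  unfold rho
  nlinarith [mul_le_mul_of_nonneg_right hk hs, mul_le_mul_of_nonneg_right hk1 hA,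
    mul_le_mul_of_nonneg_right hk1 hB]

theorem F_arg_upper {P Q k : ℝ} (hP : 0 ≤ P) (hQ : 0 ≤ Q) (hk1 : 1 ≤ k) (hk : P + Q ≤ k) (y : Ω) :
    S.F (Q * S.s y ^ 2 + S.A y) (P * S.s y ^ 2 + S.B y) ≤ S.c2 ^ 2 * k * S.rho y := by
  have hA := S.A0 y
  have hB := S.B0 y
  have hs := sq_nonneg (S.s y)
  refine le_trans (S.F_upper (by positivity) (by positivity)) ?_
  rw [mul_assoc]
  refine mul_le_mul_of_nonneg_left ?_ (sq_nonneg _)
  unfold rho
  nlinarith [mul_le_mul_of_nonneg_right hk hs, mul_le_mul_of_nonneg_right hk1 hA,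
    mul_le_mul_of_nonneg_right hk1 hB]

/-- the integrand of the section function -/
noncomputable abbrev E (P Q : ℝ) (y : Ω) : ℝ :=
  exp (-(S.F (Q * S.s y ^ 2 + S.A y) (P * S.s y ^ 2 + S.B y)))

theorem cont_E : Continuous (fun q : (ℝ × ℝ) × Ω => S.E q.1.1 q.1.2 q.2) := by
  have hs := S.cs
  have hA := S.cA
  have hB := S.cB
  have h1 : Continuous (fun q : (ℝ × ℝ) × Ω =>
      ((q.1.2 * S.s q.2 ^ 2 + S.A q.2, q.1.1 * S.s q.2 ^ 2 + S.B q.2) : ℝ × ℝ)) := by fun_prop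
  exact (S.contF.comp h1).neg.rexp

theorem cont_E_y (P Q : ℝ) : Continuous (S.E P Q) :=
  S.cont_E.comp (f := fun y : Ω => (((P, Q), y) : (ℝ × ℝ) × Ω)) (by fun_prop)

theorem E_le {P Q k : ℝ} (hP : 0 ≤ P) (hQ : 0 ≤ Q) (hk1 : k ≤ 1) (hk : k ≤ P + Q) (y : Ω) :
    S.E P Q y ≤ exp (-(S.c1 ^ 2 * k * S.rho y)) :=
  exp_le_exp.2 (neg_le_neg (S.F_arg_lower hP hQ hk1 hk y))

theorem le_E {P Q k : ℝ} (hP : 0 ≤ P) (hQ : 0 ≤ Q) (hk1 : 1 ≤ k) (hk : P + Q ≤ k) (y : Ω) :
    exp (-(S.c2 ^ 2 * k * S.rho y)) ≤ S.E P Q y :=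
  exp_le_exp.2 (neg_le_neg (S.F_arg_upper hP hQ hk1 hk y))

theorem int_E {P Q : ℝ} (hP : 0 ≤ P) (hQ : 0 ≤ Q) (hPQ : 0 < P + Q) :
    Integrable (S.E P Q) S.μ := by
  have hk : 0 < S.c1 ^ 2 * min 1 (P + Q) := mul_pos (pow_pos S.c1pos 2) (lt_min one_pos hPQ)
  refine (S.gauss _ hk).mono' (S.cont_E_y P Q).aestronglyMeasurable (ae_of_all _ fun y => ?_)
  rw [Real.norm_of_nonneg (exp_pos _).le]
  exact S.E_le hP hQ (min_le_left _ _) (min_le_right _ _) y

theorem int_sq_gauss {k : ℝ} (hk : 0 < k) :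
    Integrable (fun y => S.s y ^ 2 * exp (-(k * S.rho y))) S.μ := by
  have hs := S.cs
  have hA := S.cA
  have hB := S.cB
  refine ((S.gauss (k / 2) (half_pos hk)).const_mul (2 / k)).mono' ?_ (ae_of_all _ fun y => ?_)
  · refine Continuous.aestronglyMeasurable ?_
    unfold rho
    fun_prop
  · rw [Real.norm_of_nonneg (by positivity)]
    have h1 : S.s y ^ 2 ≤ S.rho y := by
      have := S.A0 y; have := S.B0 y; unfold rho; linarith
    have h2 : k / 2 * S.rho y ≤ exp (k / 2 * S.rho y) := by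
      have := add_one_le_exp (k / 2 * S.rho y); linarith
    have h3 : S.rho y ≤ 2 / k * exp (k / 2 * S.rho y) := by
      have : S.rho y = 2 / k * (k / 2 * S.rho y) := by field_simp
      rw [this]
      refine mul_le_mul_of_nonneg_left ?_ (by positivity)
      rw [← this]; exact h2
    calc S.s y ^ 2 * exp (-(k * S.rho y))
        ≤ 2 / k * exp (k / 2 * S.rho y) * exp (-(k * S.rho y)) :=
          mul_le_mul_of_nonneg_right (h1.trans h3) (exp_pos _).le
      _ = 2 / k * exp (-(k / 2 * S.rho y)) := by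
          rw [mul_assoc, ← exp_add]; congr 2; ring

theorem int_sq_E {P Q : ℝ} (hP : 0 ≤ P) (hQ : 0 ≤ Q) (hPQ : 0 < P + Q) :
    Integrable (fun y => S.s y ^ 2 * S.E P Q y) S.μ := by
  have hk : 0 < S.c1 ^ 2 * min 1 (P + Q) := mul_pos (pow_pos S.c1pos 2) (lt_min one_pos hPQ)
  refine (S.int_sq_gauss hk).mono' ((S.cs.pow 2).mul (S.cont_E_y P Q)).aestronglyMeasurable
    (ae_of_all _ fun y => ?_)
  rw [Real.norm_of_nonneg (by positivity)]
  exact mul_le_mul_of_nonneg_left (S.E_le hP hQ (min_le_left _ _) (min_le_right _ _) y)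
    (sq_nonneg _)

theorem av_nonneg (P Q : ℝ) : 0 ≤ S.av P Q :=
  integral_nonneg fun _ => (exp_pos _).le

theorem t1' {α β x y : ℝ} (hα : 0 ≤ α) (hβ : 0 ≤ β) (h : 0 < α ^ 2 + β ^ 2) (hx : 0 ≤ x)
    (hy : 0 ≤ y) : (α * x + β * y) * S.av (α ^ 2) (β ^ 2) ≤ S.c * S.N x y := by
  set r := √(α ^ 2 + β ^ 2) with hr
  have hr0 : 0 < r := sqrt_pos.2 h
  have hr2 : r ^ 2 = α ^ 2 + β ^ 2 := sq_sqrt h.le
  have hu : (α / r) ^ 2 + (β / r) ^ 2 = 1 := by
    rw [div_pow, div_pow, ← add_div, hr2, div_self h.ne']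
  have h1 := S.t1 (α / r) (β / r) x y (by positivity) (by positivity) hu hx hy
  have h2 := S.avHom r ((α / r) ^ 2) ((β / r) ^ 2) hr0 (by positivity) (by positivity)
    (by rw [hu]; exact one_pos)
  have e1 : r ^ 2 * (α / r) ^ 2 = α ^ 2 := by field_simp
  have e2 : r ^ 2 * (β / r) ^ 2 = β ^ 2 := by field_simp
  rw [e1, e2] at h2
  have : (α * x + β * y) * S.av (α ^ 2) (β ^ 2) =
      (α / r * x + β / r * y) * Av S.μ S.s S.A S.B S.N ((α / r) ^ 2) ((β / r) ^ 2) := by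
    unfold av; rw [h2]; field_simp
  rw [this]; exact h1

theorem cont_av_arc : ContinuousOn (fun t : ℝ => S.av t (1 - t)) (Icc 0 1) := by
  have hk : 0 < S.c1 ^ 2 * 1 := mul_pos (pow_pos S.c1pos 2) one_pos
  refine continuousOn_of_dominated (F := fun t y => S.E t (1 - t) y)
    (fun t _ => (S.cont_E_y _ _).aestronglyMeasurable) (fun t ht => ae_of_all _ fun y => ?_)
    (S.gauss _ hk) (ae_of_all _ fun y => ?_)
  · rw [Real.norm_of_nonneg (exp_pos _).le]
    exact S.E_le ht.1 (by linarith [ht.2]) le_rfl (by linarith) y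
  · exact (S.cont_E.comp (f := fun t : ℝ => (((t, 1 - t), y) : (ℝ × ℝ) × Ω))
      (by fun_prop)).continuousOn

/-- `(α, β)` is a contact normal at the point `(x, y)`. -/
def Pair (x y α β : ℝ) : Prop :=
  0 ≤ α ∧ 0 ≤ β ∧ 0 < α ^ 2 + β ^ 2 ∧ α * x + β * y = S.N x y ∧ S.av (α ^ 2) (β ^ 2) = S.c

theorem N_pos {x y : ℝ} (hx : 0 ≤ x) (hy : 0 ≤ y) (h : 0 < x + y) : 0 < S.N x y := by
  have h1 := S.N_ge_left x y
  have h2 := S.N_ge_right x y
  have := mul_pos S.c1pos h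
  linarith

theorem exists_pair {x y : ℝ} (hx : 0 ≤ x) (hy : 0 ≤ y) (h : 0 < x + y) :
    ∃ α β, S.Pair x y α β := by
  have hc : ContinuousOn (fun t : ℝ => (√t * x + √(1 - t) * y) * S.av t (1 - t)) (Icc 0 1) :=
    ContinuousOn.mul (by fun_prop) S.cont_av_arc
  obtain ⟨t, ht, hmax⟩ := isCompact_Icc.exists_isMaxOn ⟨0, by simp⟩ hc
  have hN := S.N_pos hx hy h
  set M := (√t * x + √(1 - t) * y) * S.av t (1 - t) with hM
  have hge : S.c * S.N x y ≤ M := by
    have : ∀ r : ℝ, 1 < r → S.c * S.N x y ≤ r * M := by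
      intro r hr
      obtain ⟨α, β, hα, hβ, hu, hle⟩ := S.t2 x y r hx hy h hr
      refine hle.trans (mul_le_mul_of_nonneg_left ?_ (by linarith))
      have h1 : α ^ 2 ∈ Icc (0 : ℝ) 1 := ⟨sq_nonneg _, by nlinarith [sq_nonneg β]⟩
      have h2 := hmax h1
      have e : 1 - α ^ 2 = β ^ 2 := by linarith
      simp only [mem_setOf_eq] at h2
      rw [e, sqrt_sq hα, sqrt_sq hβ] at h2
      exact h2
    have hlim : Tendsto (fun r : ℝ => r * M) (𝓝[>] 1) (𝓝 (1 * M)) :=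
      ((continuous_id.mul continuous_const).tendsto 1).mono_left nhdsWithin_le_nhds
    rw [one_mul] at hlim
    exact ge_of_tendsto hlim (eventually_nhdsWithin_of_forall this)
  have e1 : √t ^ 2 = t := sq_sqrt ht.1
  have e2 : √(1 - t) ^ 2 = 1 - t := sq_sqrt (by linarith [ht.2])
  have hle : M ≤ S.c * S.N x y := by
    have := S.t1 (√t) (√(1 - t)) x y (sqrt_nonneg _) (sqrt_nonneg _) (by rw [e1, e2]; ring) hx hy
    rwa [e1, e2] at this
  have heq : M = S.c * S.N x y := le_antisymm hle hge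
  have hav : 0 < S.av t (1 - t) := by
    rcases (S.av_nonneg t (1 - t)).eq_or_lt with h0 | h0
    · rw [hM, ← h0, mul_zero] at heq
      have := mul_pos S.cpos hN
      linarith
    · exact h0
  have hcp := S.cpos
  set r := S.av t (1 - t) / S.c with hr
  have hr0 : 0 < r := div_pos hav hcp
  refine ⟨r * √t, r * √(1 - t), by positivity, by positivity, ?_, ?_, ?_⟩
  · rw [mul_pow, mul_pow, e1, e2, ← mul_add]
    simpa using pow_pos hr0 2
  · have : r * √t * x + r * √(1 - t) * y = M / S.c := by rw [hM, hr]; ring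
    rw [this, heq]; field_simp
  · rw [mul_pow, mul_pow, e1, e2]
    have := S.avHom r t (1 - t) hr0 ht.1 (by linarith [ht.2]) (by simp)
    unfold av
    rw [this, hr]
    have hav' : Av S.μ S.s S.A S.B S.N t (1 - t) ≠ 0 := hav.ne'
    unfold av
    field_simp

variable {S}

theorem Pair.support {x y α β : ℝ} (h : S.Pair x y α β) {w1 w2 : ℝ} (h1 : 0 ≤ w1) (h2 : 0 ≤ w2) :
    α * w1 + β * w2 ≤ S.N w1 w2 := by
  obtain ⟨hα, hβ, hp, -, hc⟩ := h
  have := S.t1' hα hβ hp h1 h2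
  rw [hc, mul_comm] at this
  exact le_of_mul_le_mul_left this S.cpos

theorem Pair.alpha_le' {x y α β : ℝ} (h : S.Pair x y α β) : α ≤ S.N 1 0 := by
  have := h.support zero_le_one le_rfl
  simpa using this

theorem Pair.alpha_le {x y α β : ℝ} (h : S.Pair x y α β) : α ≤ S.c2 :=
  h.alpha_le'.trans S.N_one_zero

theorem Pair.beta_le {x y α β : ℝ} (h : S.Pair x y α β) : β ≤ S.c2 := by
  have := h.support le_rfl zero_le_one
  have h2 := S.N_zero_one
  simp at this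
  linarith

theorem Pair.sq_lower {x y α β : ℝ} (h : S.Pair x y α β) (hx : 0 < x) :
    S.c1 ^ 2 ≤ α ^ 2 + β ^ 2 := by
  obtain ⟨hα, hβ, hp, he, hc⟩ := h
  have h1 := S.lower x y
  rw [← he] at h1
  have h2 : (α * x + β * y) ^ 2 ≤ (α ^ 2 + β ^ 2) * (x ^ 2 + y ^ 2) := by
    nlinarith [sq_nonneg (α * y - β * x)]
  have h3 : 0 < x ^ 2 + y ^ 2 := by positivity
  exact le_of_mul_le_mul_right (h1.trans h2) h3

theorem Pair.sq_upper {x y α β : ℝ} (h : S.Pair x y α β) : α ^ 2 + β ^ 2 ≤ 2 * S.c2 ^ 2 := by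
  have h1 := h.alpha_le
  have h2 := h.beta_le
  have h3 := pow_le_pow_left₀ h.1 h1 2
  have h4 := pow_le_pow_left₀ h.2.1 h2 2
  linarith

variable (S)

theorem N_mono {x y : ℝ} (hx : 0 < x) (hy : 0 ≤ y) : S.N 1 0 * x ≤ S.N x y := by
  obtain ⟨α, β, h⟩ := S.exists_pair zero_le_one le_rfl (by norm_num : (0 : ℝ) < 1 + 0)
  have h1 := h.support hx.le hy
  have h2 := h.2.2.2.1
  have h3 := mul_nonneg h.2.1 hy
  have : α = S.N 1 0 := by simpa using h2
  rw [← this]; linarith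

end Setup

end Pool.Agent.MP_2a44fd_gt

end MrgPart0

-- ======== part 1: formerly Pool.Agent.MP_2a44fd_gt.Transfer
section MrgPart1

/-!
Planar core: passing from contact normals to increments of the squared gauge and back.
-/

set_option autoImplicit false
set_option linter.unusedSectionVars false

open MeasureTheory Real Set Filter Topology

namespace Pool.Agent.MP_2a44fd_gt

theorem deriv_nonpos_of_le {φ : ℝ → ℝ} {d : ℝ} (h : HasDerivAt φ d 0)
    (hle : ∀ᶠ t in 𝓝[>] (0 : ℝ), φ t ≤ φ 0) : d ≤ 0 := by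
  have h1 : Tendsto (slope φ 0) (𝓝[>] 0) (𝓝 d) :=
    (hasDerivAt_iff_tendsto_slope.1 h).mono_left (nhdsWithin_mono _ (fun z hz => ne_of_gt hz))
  refine le_of_tendsto h1 ?_
  filter_upwards [hle, self_mem_nhdsWithin] with t ht ht0
  rw [slope_def_field]
  exact div_nonpos_of_nonpos_of_nonneg (by linarith) (by simpa using le_of_lt ht0)

theorem hasDerivAt_sqrt_lin {α q : ℝ} (hα : 0 ≤ α) (h : 0 < α ∨ q = 0) :
    HasDerivAt (fun t : ℝ => √(α ^ 2 - q * t)) (-(q / (2 * α))) 0 := by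
  rcases h with h | h
  · have h1 : HasDerivAt (fun t : ℝ => α ^ 2 - q * t) (-q) 0 :=
      (((hasDerivAt_id (0 : ℝ)).const_mul q).const_sub (α ^ 2)).congr_deriv (by simp)
    have h2 := h1.sqrt (by simpa using h.ne')
    refine h2.congr_deriv ?_
    simp only [mul_zero, sub_zero, sqrt_sq hα]
    ring
  · subst h
    simpa using hasDerivAt_const (0 : ℝ) (√(α ^ 2))

namespace Setup

variable {Ω : Type*} [TopologicalSpace Ω] [MeasurableSpace Ω] [BorelSpace Ω] (S : Setup Ω)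

theorem incr_open {U : Set (ℝ × ℝ)} (hU : Convex ℝ U) {p q m : ℝ}
    (hm : ∀ x y α β, 0 < x → 0 < y → S.Pair x y α β → (x ^ 2, y ^ 2) ∈ U →
      m ≤ S.N x y * (p * α / x + q * β / y))
    {X Y T : ℝ} (hT : 0 ≤ T) (hX : 0 < X) (hY : 0 < Y) (hX' : 0 < X + p * T) (hY' : 0 < Y + q * T)
    (h0 : (X, Y) ∈ U) (h1 : (X + p * T, Y + q * T) ∈ U) :
    S.F X Y + m * T ≤ S.F (X + p * T) (Y + q * T) := by
  have key := dini (f := fun z => S.F (X + p * z) (Y + q * z)) (m := m) hT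
    (S.contF.comp (f := fun z : ℝ => ((X + p * z, Y + q * z) : ℝ × ℝ)) (by fun_prop)).continuousOn
    (fun τ hτ => by
      have hT0 : 0 < T := lt_of_le_of_lt hτ.1 hτ.2
      have ha : 0 ≤ τ / T := div_nonneg hτ.1 hT
      have hb : 0 < 1 - τ / T := by rw [sub_pos, div_lt_one hT0]; exact hτ.2
      have eX : X + p * τ = (1 - τ / T) * X + τ / T * (X + p * T) := by field_simp; ring
      have eY : Y + q * τ = (1 - τ / T) * Y + τ / T * (Y + q * T) := by field_simp; ring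
      have hXτ : 0 < X + p * τ := by rw [eX]; positivity
      have hYτ : 0 < Y + q * τ := by rw [eY]; positivity
      have hmem : (X + p * τ, Y + q * τ) ∈ U := by
        have := hU h0 h1 hb.le ha (by ring)
        convert this using 1
        ext <;> simp [eX, eY]
      set x := √(X + p * τ) with hx
      set y := √(Y + q * τ) with hy
      have hx0 : 0 < x := sqrt_pos.2 hXτ
      have hy0 : 0 < y := sqrt_pos.2 hYτ
      obtain ⟨α, β, h⟩ := S.exists_pair hx0.le hy0.le (by positivity)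
      have hd1 : HasDerivAt (fun z => √(X + p * z)) (p / (2 * x)) τ :=
        ((((hasDerivAt_id τ).const_mul p).const_add X).sqrt hXτ.ne').congr_deriv (by simp [hx])
      have hd2 : HasDerivAt (fun z => √(Y + q * z)) (q / (2 * y)) τ :=
        ((((hasDerivAt_id τ).const_mul q).const_add Y).sqrt hYτ.ne').congr_deriv (by simp [hy])
      have hd3 := ((hd1.const_mul α).add (hd2.const_mul β)).pow 2
      refine ⟨fun z => (α * √(X + p * z) + β * √(Y + q * z)) ^ 2, _, hd3, ?_, ?_, fun z => ?_⟩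
      · have := hm x y α β hx0 hy0 h (by rwa [hx, hy, sq_sqrt hXτ.le, sq_sqrt hYτ.le])
        refine this.trans (le_of_eq ?_)
        rw [← h.2.2.2.1]
        simp only [Pi.add_apply, ← hx, ← hy]
        field_simp
        ring
      · simp only [Fq, ← hx, ← hy, h.2.2.2.1]
      · have h1 := h.support (sqrt_nonneg (X + p * z)) (sqrt_nonneg (Y + q * z))
        have h2 := h.1
        have h3 := h.2.1
        exact pow_le_pow_left₀ (by positivity) h1 2)
  simpa using key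

theorem incr {U : Set (ℝ × ℝ)} (hU : Convex ℝ U) (hUo : IsOpen U) {p q m : ℝ}
    (hm : ∀ x y α β, 0 < x → 0 < y → S.Pair x y α β → (x ^ 2, y ^ 2) ∈ U →
      m ≤ S.N x y * (p * α / x + q * β / y))
    {X Y T : ℝ} (hT : 0 ≤ T) (hX : 0 ≤ X) (hY : 0 ≤ Y) (hX' : 0 ≤ X + p * T) (hY' : 0 ≤ Y + q * T)
    (h0 : (X, Y) ∈ U) (h1 : (X + p * T, Y + q * T) ∈ U) :
    S.F X Y + m * T ≤ S.F (X + p * T) (Y + q * T) := by
  have c0 : Continuous (fun ε : ℝ => ((X + ε, Y + ε) : ℝ × ℝ)) := by fun_prop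
  have c1 : Continuous (fun ε : ℝ => ((X + ε + p * T, Y + ε + q * T) : ℝ × ℝ)) := by fun_prop
  have e0 : ∀ᶠ ε in 𝓝 (0 : ℝ), ((X + ε, Y + ε) : ℝ × ℝ) ∈ U :=
    c0.continuousAt.eventually (hUo.mem_nhds (by simpa using h0))
  have e1 : ∀ᶠ ε in 𝓝 (0 : ℝ), ((X + ε + p * T, Y + ε + q * T) : ℝ × ℝ) ∈ U :=
    c1.continuousAt.eventually (hUo.mem_nhds (by simpa using h1))
  have l0 : Tendsto (fun ε : ℝ => S.F (X + ε) (Y + ε) + m * T) (𝓝[>] 0) (𝓝 (S.F X Y + m * T)) := by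
    have hc : Continuous (fun ε : ℝ => S.F (X + ε) (Y + ε) + m * T) :=
      (S.contF.comp c0).add continuous_const
    have := (hc.tendsto 0).mono_left (nhdsWithin_le_nhds (s := Ioi 0))
    simpa using this
  have l1 : Tendsto (fun ε : ℝ => S.F (X + ε + p * T) (Y + ε + q * T)) (𝓝[>] 0)
      (𝓝 (S.F (X + p * T) (Y + q * T))) := by
    have hc : Continuous (fun ε : ℝ => S.F (X + ε + p * T) (Y + ε + q * T)) := S.contF.comp c1
    have := (hc.tendsto 0).mono_left (nhdsWithin_le_nhds (s := Ioi 0))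
    simpa using this
  refine le_of_tendsto_of_tendsto l0 l1 ?_
  filter_upwards [nhdsWithin_le_nhds e0, nhdsWithin_le_nhds e1, self_mem_nhdsWithin]
    with ε h0 h1 hε
  have hε' : 0 < ε := hε
  exact S.incr_open hU hm hT (by linarith) (by linarith) (by linarith) (by linarith) h0 h1

theorem transfer {x y α β P Q t : ℝ} (h : S.Pair x y α β) (hx : 0 ≤ x) (hy : 0 ≤ y)
    (hP : 0 ≤ P) (hQ : 0 ≤ Q) (hPQ : 0 < P + Q) {m : Ω → ℝ}
    (hmi : Integrable (fun ω => m ω * (S.s ω ^ 2 * S.E (α ^ 2) (β ^ 2) ω)) S.μ)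
    (hinc : ∀ ω, S.F (Q * S.s ω ^ 2 + S.A ω) (P * S.s ω ^ 2 + S.B ω) + m ω * (t * S.s ω ^ 2) ≤
      S.F (β ^ 2 * S.s ω ^ 2 + S.A ω) (α ^ 2 * S.s ω ^ 2 + S.B ω)) :
    (√P * x + √Q * y) *
      (S.c + t * ∫ ω, m ω * (S.s ω ^ 2 * S.E (α ^ 2) (β ^ 2) ω) ∂S.μ) ≤ S.c * S.N x y := by
  have e1 : √P ^ 2 = P := sq_sqrt hP
  have e2 : √Q ^ 2 = Q := sq_sqrt hQ
  have h1 := S.t1' (sqrt_nonneg P) (sqrt_nonneg Q) (by rwa [e1, e2]) hx hy
  rw [e1, e2] at h1
  refine le_trans (mul_le_mul_of_nonneg_left ?_ (by positivity)) h1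
  have hi0 := S.int_E (sq_nonneg α) (sq_nonneg β) h.2.2.1
  rw [← h.2.2.2.2, ← integral_const_mul]
  unfold av Av
  rw [← integral_add hi0 (hmi.const_mul t)]
  refine integral_mono (hi0.add (hmi.const_mul t)) (S.int_E hP hQ hPQ) fun ω => ?_
  have h2 := hinc ω
  have h3 := add_one_le_exp (m ω * (t * S.s ω ^ 2))
  have h4 : S.E (α ^ 2) (β ^ 2) ω * exp (m ω * (t * S.s ω ^ 2)) ≤ S.E P Q ω := by
    unfold E
    rw [← exp_add]
    exact exp_le_exp.2 (by linarith)
  have h5 : 0 < S.E (α ^ 2) (β ^ 2) ω := exp_pos _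
  have h6 := mul_le_mul_of_nonneg_left h3 h5.le
  change S.E (α ^ 2) (β ^ 2) ω + t * (m ω * (S.s ω ^ 2 * S.E (α ^ 2) (β ^ 2) ω)) ≤ S.E P Q ω
  nlinarith

/-- lower Gaussian weight of a region -/
noncomputable def gam (R : Set Ω) : ℝ :=
  ∫ ω in R, S.s ω ^ 2 * exp (-(S.c2 ^ 2 * (1 + 2 * S.c2 ^ 2) * S.rho ω)) ∂S.μ

theorem gam_pos {R : Set Ω} (hR : IsOpen R) {ω₀ : Ω} (h0 : ω₀ ∈ R) (hs : S.s ω₀ ≠ 0) :
    0 < S.gam R := by
  have hc2 := S.c2pos
  have hk : 0 < S.c2 ^ 2 * (1 + 2 * S.c2 ^ 2) := by positivity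
  have := S.openPos
  unfold gam
  rw [setIntegral_pos_iff_support_of_nonneg_ae (ae_of_all _ fun ω => by positivity)
    (S.int_sq_gauss hk).integrableOn]
  have ho : IsOpen ({ω | S.s ω ≠ 0} ∩ R) := (isOpen_ne_fun S.cs continuous_const).inter hR
  refine lt_of_lt_of_le (ho.measure_pos S.μ ⟨ω₀, hs, h0⟩) (measure_mono ?_)
  rintro ω ⟨h1, h2⟩
  refine ⟨?_, h2⟩
  have h1' : S.s ω ≠ 0 := h1
  rw [Function.mem_support]
  positivity

theorem gain {p q κ : ℝ} (hκ : 0 ≤ κ) {U : Set (ℝ × ℝ)} (hU : Convex ℝ U) (hUo : IsOpen U)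
    (hbase : ∀ x y α β, 0 < x → 0 < y → S.Pair x y α β → 0 ≤ S.N x y * (p * α / x + q * β / y))
    (hm : ∀ x y α β, 0 < x → 0 < y → S.Pair x y α β → (x ^ 2, y ^ 2) ∈ U →
      κ ≤ S.N x y * (p * α / x + q * β / y))
    {R : Set Ω} (hR : IsOpen R) {x y α β : ℝ} (hx : 0 < x) (hy : 0 < y) (h : S.Pair x y α β)
    (hαq : 0 < α ∨ q = 0) (hβp : 0 < β ∨ p = 0)
    (hRU : ∀ᶠ t in 𝓝 (0 : ℝ), 0 ≤ t → ∀ ω ∈ R,
      ((β ^ 2 - p * t) * S.s ω ^ 2 + S.A ω, (α ^ 2 - q * t) * S.s ω ^ 2 + S.B ω) ∈ U) :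
    S.N x y * (κ * S.gam R) ≤ S.c * (q * x / (2 * α) + p * y / (2 * β)) := by
  set m : Ω → ℝ := R.indicator (fun _ => κ) with hmdef
  have hiE := S.int_sq_E (sq_nonneg α) (sq_nonneg β) h.2.2.1
  have hfun : (fun ω => m ω * (S.s ω ^ 2 * S.E (α ^ 2) (β ^ 2) ω)) =
      R.indicator (fun ω => κ * (S.s ω ^ 2 * S.E (α ^ 2) (β ^ 2) ω)) := by
    ext ω
    by_cases hω : ω ∈ R <;> simp [hmdef, hω]
  have hmi : Integrable (fun ω => m ω * (S.s ω ^ 2 * S.E (α ^ 2) (β ^ 2) ω)) S.μ := by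
    rw [hfun]; exact (hiE.const_mul κ).indicator hR.measurableSet
  set I := ∫ ω, m ω * (S.s ω ^ 2 * S.E (α ^ 2) (β ^ 2) ω) ∂S.μ with hI
  have hc2 := S.c2pos
  have hIge : κ * S.gam R ≤ I := by
    rw [hI, hfun, integral_indicator hR.measurableSet, integral_const_mul]
    refine mul_le_mul_of_nonneg_left ?_ hκ
    have hk : 0 < S.c2 ^ 2 * (1 + 2 * S.c2 ^ 2) := by positivity
    refine setIntegral_mono (S.int_sq_gauss hk).integrableOn hiE.integrableOn fun ω => ?_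
    refine mul_le_mul_of_nonneg_left (S.le_E (sq_nonneg _) (sq_nonneg _) (by nlinarith) ?_ ω)
      (sq_nonneg _)
    have := h.sq_upper
    linarith
  have hN := S.N0 x y
  refine le_trans (mul_le_mul_of_nonneg_left hIge hN) ?_
  have hd : HasDerivAt (fun t : ℝ => (√(α ^ 2 - q * t) * x + √(β ^ 2 - p * t) * y) * (S.c + t * I))
      (S.N x y * I - S.c * (q * x / (2 * α) + p * y / (2 * β))) 0 := by
    have d1 := ((hasDerivAt_sqrt_lin h.1 hαq).mul_const x).add
      ((hasDerivAt_sqrt_lin h.2.1 hβp).mul_const y)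
    have d2 : HasDerivAt (fun t : ℝ => S.c + t * I) I 0 :=
      (((hasDerivAt_id (0 : ℝ)).mul_const I).const_add S.c).congr_deriv (by simp)
    refine (d1.mul d2).congr_deriv ?_
    simp only [Pi.add_apply, mul_zero, sub_zero, zero_mul, add_zero, sqrt_sq h.1, sqrt_sq h.2.1,
      h.2.2.2.1]
    ring
  have := deriv_nonpos_of_le hd ?_
  · linarith
  have evP : ∀ᶠ t in 𝓝 (0 : ℝ), 0 ≤ α ^ 2 - q * t := by
    rcases hαq with h1 | h1
    · have : ContinuousAt (fun t : ℝ => α ^ 2 - q * t) 0 := by fun_prop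
      exact (this.eventually (lt_mem_nhds (by simpa using pow_pos h1 2))).mono fun t ht => le_of_lt ht
    · exact Eventually.of_forall fun t => by simp [h1, sq_nonneg]
  have evQ : ∀ᶠ t in 𝓝 (0 : ℝ), 0 ≤ β ^ 2 - p * t := by
    rcases hβp with h1 | h1
    · have : ContinuousAt (fun t : ℝ => β ^ 2 - p * t) 0 := by fun_prop
      exact (this.eventually (lt_mem_nhds (by simpa using pow_pos h1 2))).mono fun t ht => le_of_lt ht
    · exact Eventually.of_forall fun t => by simp [h1, sq_nonneg]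
  have evPQ : ∀ᶠ t in 𝓝 (0 : ℝ), 0 < (α ^ 2 - q * t) + (β ^ 2 - p * t) := by
    have : ContinuousAt (fun t : ℝ => (α ^ 2 - q * t) + (β ^ 2 - p * t)) 0 := by fun_prop
    exact this.eventually (lt_mem_nhds (by simpa using h.2.2.1))
  have hRU0 := hRU.self_of_nhds le_rfl
  filter_upwards [nhdsWithin_le_nhds evP, nhdsWithin_le_nhds evQ, nhdsWithin_le_nhds evPQ,
    nhdsWithin_le_nhds hRU, self_mem_nhdsWithin] with t hP hQ hPQ hRt ht
  have ht' : 0 < t := ht
  have key := S.transfer (t := t) h hx.le hy.le hP hQ hPQ hmi (fun ω => ?_)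
  · simp only [mul_zero, sub_zero, zero_mul, add_zero, sqrt_sq h.1, sqrt_sq h.2.1, h.2.2.2.1]
    rw [mul_comm (S.N x y)]
    exact key
  have hA := S.A0 ω
  have hB := S.B0 ω
  have eX : β ^ 2 * S.s ω ^ 2 + S.A ω =
      ((β ^ 2 - p * t) * S.s ω ^ 2 + S.A ω) + p * (t * S.s ω ^ 2) := by ring
  have eY : α ^ 2 * S.s ω ^ 2 + S.B ω =
      ((α ^ 2 - q * t) * S.s ω ^ 2 + S.B ω) + q * (t * S.s ω ^ 2) := by ring
  by_cases hω : ω ∈ R
  · have hmω : m ω = κ := by simp [hmdef, hω]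
    rw [hmω, eX, eY]
    refine S.incr hU hUo hm (by positivity) (by positivity) (by positivity)
      (by rw [← eX]; positivity) (by rw [← eY]; positivity) (hRt ht'.le ω hω) ?_
    rw [← eX, ← eY]
    simpa using hRU0 ω hω
  · have hmω : m ω = 0 := by simp [hmdef, hω]
    rw [hmω, eX, eY]
    exact S.incr convex_univ isOpen_univ (fun x y α β hx hy h _ => hbase x y α β hx hy h)
      (by positivity) (by positivity) (by positivity)
      (by rw [← eX]; positivity) (by rw [← eY]; positivity) trivial trivial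

end Setup

end Pool.Agent.MP_2a44fd_gt

end MrgPart1

-- ======== part 2: formerly Pool.Agent.MP_2a44fd_gt.Core
section MrgPart2

/-!
Planar core: the maximum principle that forces the squared gauge to be linear.
-/

set_option autoImplicit false
set_option linter.unusedSectionVars false

open MeasureTheory Real Set Filter Topology

namespace Pool.Agent.MP_2a44fd_gt

theorem convex_below (θ : ℝ) : Convex ℝ {p : ℝ × ℝ | p.2 < θ * p.1} := by
  have := convex_halfSpace_lt (𝕜 := ℝ) (f := fun p : ℝ × ℝ => p.2 - θ * p.1)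
    ⟨fun a b => by simp; ring, fun c a => by simp; ring⟩ 0
  have e : {p : ℝ × ℝ | p.2 < θ * p.1} = {w : ℝ × ℝ | w.2 - θ * w.1 < 0} := by ext p; simp
  rw [e]; exact this

theorem convex_above (θ : ℝ) : Convex ℝ {p : ℝ × ℝ | θ * p.1 < p.2} := by
  have := convex_halfSpace_lt (𝕜 := ℝ) (f := fun p : ℝ × ℝ => θ * p.1 - p.2)
    ⟨fun a b => by simp; ring, fun c a => by simp; ring⟩ 0
  have e : {p : ℝ × ℝ | θ * p.1 < p.2} = {w : ℝ × ℝ | θ * w.1 - w.2 < 0} := by ext p; simp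
  rw [e]; exact this

theorem open_below (θ : ℝ) : IsOpen {p : ℝ × ℝ | p.2 < θ * p.1} :=
  isOpen_lt (by fun_prop) (by fun_prop)

theorem open_above (θ : ℝ) : IsOpen {p : ℝ × ℝ | θ * p.1 < p.2} :=
  isOpen_lt (by fun_prop) (by fun_prop)

namespace Setup

variable {Ω : Type*} [TopologicalSpace Ω] [MeasurableSpace Ω] [BorelSpace Ω] (S : Setup Ω)

theorem gain_near {q κ θ : ℝ} (hκ : 0 < κ) (hθ : 0 < θ)
    (hbase : ∀ x y α β, 0 < x → 0 < y → S.Pair x y α β → 0 ≤ S.N x y * (1 * α / x + q * β / y))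
    (hm : ∀ x y α β, 0 < x → 0 < y → S.Pair x y α β → y ^ 2 < θ * x ^ 2 →
      κ ≤ S.N x y * (1 * α / x + q * β / y)) :
    ∃ η : ℝ, 0 < η ∧ ∀ x y α β, 0 < x → 0 < y → S.Pair x y α β → (0 < α ∨ q = 0) → 0 < β →
      S.N x y * η ≤ q * x / α + y / β := by
  have hc2 := S.c2pos
  have hc := S.cpos
  set R : Set Ω := {ω | 1 < S.A ω} ∩ {ω | (S.c2 ^ 2 + 1) * S.s ω ^ 2 + S.B ω < θ} with hRdef
  have hR : IsOpen R := by
    have := S.cs; have := S.cA; have := S.cB
    exact (isOpen_lt (by fun_prop) (by fun_prop)).inter (isOpen_lt (by fun_prop) (by fun_prop))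
  have hσ : 0 < θ / (2 * (S.c2 ^ 2 + 1)) := by positivity
  obtain ⟨ω₀, h1, h2, h3⟩ := S.surj (√(θ / (2 * (S.c2 ^ 2 + 1)))) 2 (by norm_num)
  have hg : 0 < S.gam R := by
    refine S.gam_pos hR (ω₀ := ω₀) ⟨?_, ?_⟩ (by rw [h1]; exact (sqrt_pos.2 hσ).ne')
    · change 1 < S.A ω₀
      rw [h2]; norm_num
    · change (S.c2 ^ 2 + 1) * S.s ω₀ ^ 2 + S.B ω₀ < θ
      rw [h1, h3, sq_sqrt hσ.le]
      have : (S.c2 ^ 2 + 1) * (θ / (2 * (S.c2 ^ 2 + 1))) = θ / 2 := by field_simp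
      linarith
  refine ⟨2 * (κ * S.gam R) / S.c, by positivity, fun x y α β hx hy h hαq hβ => ?_⟩
  have key := S.gain (p := 1) (q := q) hκ.le (convex_below θ) (open_below θ) hbase hm hR hx hy h
    hαq (Or.inl hβ) ?_
  · have e1 : S.N x y * (2 * (κ * S.gam R) / S.c) = 2 / S.c * (S.N x y * (κ * S.gam R)) := by ring
    have e2 : q * x / α + y / β = 2 / S.c * (S.c * (q * x / (2 * α) + 1 * y / (2 * β))) := by
      by_cases hα : α = 0
      · subst hα; simp; field_simp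
      · field_simp
    rw [e1, e2]
    exact mul_le_mul_of_nonneg_left key (by positivity)
  have ev1 : ∀ᶠ t in 𝓝 (0 : ℝ), 0 < β ^ 2 - 1 * t := by
    have : ContinuousAt (fun t : ℝ => β ^ 2 - 1 * t) 0 := by fun_prop
    exact this.eventually (lt_mem_nhds (by simpa using pow_pos hβ 2))
  have ev2 : ∀ᶠ t in 𝓝 (0 : ℝ), -q * t < 1 := by
    have : ContinuousAt (fun t : ℝ => -q * t) 0 := by fun_prop
    exact this.eventually (gt_mem_nhds (by simp))
  filter_upwards [ev1, ev2] with t ht1 ht2 _ ω hω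
  obtain ⟨hω1, hω2⟩ := hω
  have hω1' : 1 < S.A ω := hω1
  have hω2' : (S.c2 ^ 2 + 1) * S.s ω ^ 2 + S.B ω < θ := hω2
  change (α ^ 2 - q * t) * S.s ω ^ 2 + S.B ω < θ * ((β ^ 2 - 1 * t) * S.s ω ^ 2 + S.A ω)
  have h3 := pow_le_pow_left₀ h.1 h.alpha_le 2
  have h4 : (α ^ 2 - q * t) * S.s ω ^ 2 ≤ (S.c2 ^ 2 + 1) * S.s ω ^ 2 :=
    mul_le_mul_of_nonneg_right (by linarith) (sq_nonneg _)
  have h5 : 0 ≤ (β ^ 2 - 1 * t) * S.s ω ^ 2 := by positivity
  nlinarith

theorem stepA : ∃ C : ℝ, 0 < C ∧ ∀ x y α β, 0 < x → 0 < y → S.Pair x y α β →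
    S.N x y * β ≤ C * y := by
  have hc1 := S.c1pos
  have hc2 := S.c2pos
  obtain ⟨η, hη, H⟩ := S.gain_near (q := 0) (κ := S.c1 ^ 2 / 2) (θ := (S.c1 / (2 * S.c2)) ^ 2)
    (by positivity) (by positivity)
    (fun x y α β hx hy h => by
      have := h.1; have := S.N0 x y
      simp only [zero_mul, zero_div, add_zero]; positivity)
    (fun x y α β hx hy h hxy => by
      simp only [zero_mul, zero_div, add_zero, one_mul]
      have h1 : y < S.c1 / (2 * S.c2) * x := by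
        rw [← mul_pow] at hxy
        exact lt_of_pow_lt_pow_left₀ 2 (by positivity) hxy
      have h2 : S.c2 * y ≤ S.c1 / 2 * x := by
        have : S.c1 / 2 * x = S.c2 * (S.c1 / (2 * S.c2) * x) := by field_simp
        rw [this]; exact mul_le_mul_of_nonneg_left h1.le hc2.le
      have h3 : β * y ≤ S.c2 * y := mul_le_mul_of_nonneg_right h.beta_le hy.le
      have h4 := S.N_ge_left x y
      have h5 := h.2.2.2.1
      have h6 : S.c1 / 2 ≤ α := by
        refine le_of_mul_le_mul_right (a := x) ?_ hx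
        linarith
      have h7 : S.c1 ≤ S.N x y / x := by rw [le_div_iff₀ hx]; exact h4
      calc S.c1 ^ 2 / 2 = S.c1 * (S.c1 / 2) := by ring
        _ ≤ S.N x y / x * α := mul_le_mul h7 h6 (by positivity) (by linarith)
        _ = S.N x y * (α / x) := by ring)
  refine ⟨1 / η, by positivity, fun x y α β hx hy h => ?_⟩
  rcases h.2.1.eq_or_lt with hβ | hβ
  · rw [← hβ, mul_zero]; positivity
  · have := H x y α β hx hy h (Or.inr rfl) hβ
    simp only [zero_mul, zero_div, zero_add] at this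
    rw [le_div_iff₀ hβ] at this
    rw [div_mul_eq_mul_div, one_mul, le_div_iff₀ hη]
    linarith

theorem stepB {C : ℝ} (hC : 0 < C)
    (hA : ∀ x y α β, 0 < x → 0 < y → S.Pair x y α β → S.N x y * β ≤ C * y) :
    ∃ C' : ℝ, 0 < C' ∧ ∀ x y α β, 0 < x → 0 < y → S.Pair x y α β → x ≤ C' * (S.N x y * α) := by
  have hc1 := S.c1pos
  have hc := S.cpos
  have hk : 0 < S.c1 ^ 2 * min 1 (S.c1 ^ 2) := mul_pos (by positivity) (lt_min one_pos (by positivity))
  set G := ∫ ω, S.s ω ^ 2 * exp (-(S.c1 ^ 2 * min 1 (S.c1 ^ 2) * S.rho ω)) ∂S.μ with hG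
  have hG0 : 0 ≤ G := integral_nonneg fun ω => by positivity
  refine ⟨2 * C * G / S.c + 1, by positivity, fun x y α β hx hy h => ?_⟩
  have hiE := S.int_sq_E (sq_nonneg α) (sq_nonneg β) h.2.2.1
  set J := ∫ ω, S.s ω ^ 2 * S.E (α ^ 2) (β ^ 2) ω ∂S.μ with hJ
  have hJG : J ≤ G := integral_mono hiE (S.int_sq_gauss hk) fun ω =>
    mul_le_mul_of_nonneg_left (S.E_le (sq_nonneg _) (sq_nonneg _) (min_le_left _ _)
      ((min_le_right _ _).trans (h.sq_lower hx)) ω) (sq_nonneg _)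
  have hα := h.1
  have hN := S.N0 x y
  have hd : HasDerivAt (fun τ : ℝ => ((α + τ) * x + β * y) * (S.c + (2 * α * τ + τ ^ 2) * (-C * J)))
      (x * S.c + S.N x y * (2 * α * (-C * J))) 0 := by
    have d1 : HasDerivAt (fun τ : ℝ => (α + τ) * x + β * y) x 0 :=
      ((((hasDerivAt_id (0 : ℝ)).const_add α).mul_const x).add_const (β * y)).congr_deriv (by simp)
    have d2 : HasDerivAt (fun τ : ℝ => S.c + (2 * α * τ + τ ^ 2) * (-C * J)) (2 * α * (-C * J)) 0 :=
      (((((hasDerivAt_id (0 : ℝ)).const_mul (2 * α)).add (hasDerivAt_pow 2 (0 : ℝ))).mul_const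
        (-C * J)).const_add S.c).congr_deriv (by simp)
    refine (d1.mul d2).congr_deriv ?_
    simp [h.2.2.2.1]
  have hle := deriv_nonpos_of_le hd (by
    filter_upwards [self_mem_nhdsWithin] with τ hτ
    have hτ' : 0 < τ := hτ
    have key := S.transfer (t := 2 * α * τ + τ ^ 2) (P := (α + τ) ^ 2) (Q := β ^ 2)
      (m := fun _ => -C) h hx.le hy.le (sq_nonneg _) (sq_nonneg _) (by positivity)
      (hiE.const_mul _) (fun ω => ?_)
    · rw [sqrt_sq (by positivity), sqrt_sq h.2.1, integral_const_mul] at key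
      simp only [add_zero, mul_zero, h.2.2.2.1]
      simpa [mul_comm (S.N x y)] using key
    have hA' := S.A0 ω
    have hB := S.B0 ω
    have eX : β ^ 2 * S.s ω ^ 2 + S.A ω =
        (β ^ 2 * S.s ω ^ 2 + S.A ω) + 0 * ((2 * α * τ + τ ^ 2) * S.s ω ^ 2) := by ring
    have eY : α ^ 2 * S.s ω ^ 2 + S.B ω =
        ((α + τ) ^ 2 * S.s ω ^ 2 + S.B ω) + (-1) * ((2 * α * τ + τ ^ 2) * S.s ω ^ 2) := by ring
    conv_rhs => rw [eX, eY]
    refine S.incr convex_univ isOpen_univ (fun x y α β hx hy h _ => ?_)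
      (by positivity) (by positivity) (by positivity)
      (by rw [← eX]; positivity) (by rw [← eY]; positivity) trivial trivial
    have := hA x y α β hx hy h
    have e : S.N x y * (0 * α / x + -1 * β / y) = -(S.N x y * β / y) := by ring
    rw [e, neg_le_neg_iff, div_le_iff₀ hy]
    exact this)
  have h1 : x * S.c ≤ 2 * C * G * (S.N x y * α) := by
    have : S.N x y * α * (2 * C) * J ≤ S.N x y * α * (2 * C) * G :=
      mul_le_mul_of_nonneg_left hJG (by positivity)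
    nlinarith
  have h2 : x ≤ 2 * C * G / S.c * (S.N x y * α) := by
    rw [div_mul_eq_mul_div, le_div_iff₀ hc]; exact h1
  have h3 : 0 ≤ S.N x y * α := by positivity
  nlinarith

variable {S}

theorem Pair.mono {x y α β x' y' α' β' : ℝ} (h : S.Pair x y α β) (h' : S.Pair x' y' α' β')
    (hx : 0 < x) (hy : 0 < y) (hx' : 0 < x') (hy' : 0 < y') (hlt : y' * x < y * x') :
    α ≤ α' ∧ β' ≤ β := by
  have h1 := h.support hx'.le hy'.le
  have h2 := h'.support hx.le hy.le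
  rw [← h'.2.2.2.1] at h1
  rw [← h.2.2.2.1] at h2
  have hb : β' ≤ β := by
    by_contra hcon
    push Not at hcon
    have e1 := mul_le_mul_of_nonneg_right h1 hx.le
    have e2 := mul_le_mul_of_nonneg_right h2 hx'.le
    have e3 := mul_pos (sub_pos.2 hcon) (sub_pos.2 hlt)
    nlinarith
  refine ⟨?_, hb⟩
  refine le_of_mul_le_mul_right (a := x') ?_ hx'
  have := mul_le_mul_of_nonneg_right hb hy'.le
  linarith

variable (S)

/-- A uniform gap in the transferred inequality improves the constant. -/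
theorem gap {C' lam η x y α β : ℝ} (hC' : 0 < C') (hη : 0 < η) (hx : 0 < x)
    (hα : 0 < α) (hβ : 0 < β) (hB : x ≤ C' * (S.N x y * α))
    (h : S.N x y * η ≤ -lam * x / α + y / β) : (lam + η / C') * β * x ≤ α * y := by
  have h1 : S.N x y * η * (α * β) ≤ (-lam * x / α + y / β) * (α * β) :=
    mul_le_mul_of_nonneg_right h (by positivity)
  have e : (-lam * x / α + y / β) * (α * β) = α * y - lam * β * x := by field_simp; ring
  rw [e] at h1
  have h2 : η / C' * β * x ≤ η / C' * β * (C' * (S.N x y * α)) :=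
    mul_le_mul_of_nonneg_left hB (by positivity)
  have e2 : η / C' * β * (C' * (S.N x y * α)) = S.N x y * η * (α * β) := by field_simp
  nlinarith

theorem stepC {C C' lam : ℝ} (hC : 0 < C) (hC' : 0 < C') (hlam : 0 < lam)
    (hA : ∀ x y α β, 0 < x → 0 < y → S.Pair x y α β → S.N x y * β ≤ C * y)
    (hB : ∀ x y α β, 0 < x → 0 < y → S.Pair x y α β → x ≤ C' * (S.N x y * α))
    (hl : ∀ x y α β, 0 < x → 0 < y → S.Pair x y α β → lam * β * x ≤ α * y)
    {x₀ y₀ α₀ β₀ : ℝ} (hx₀ : 0 < x₀) (hy₀ : 0 < y₀) (h₀ : S.Pair x₀ y₀ α₀ β₀)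
    (hlt : lam * β₀ * x₀ < α₀ * y₀) :
    ∃ η : ℝ, 0 < η ∧ ∀ x y α β, 0 < x → 0 < y → S.Pair x y α β → (lam + η) * β * x ≤ α * y := by
  have hc1 := S.c1pos
  have hc2 := S.c2pos
  have hc := S.cpos
  have hαpos : ∀ x y α β, 0 < x → 0 < y → S.Pair x y α β → 0 < α := by
    intro x y α β hx hy h
    rcases h.1.eq_or_lt with h0 | h0
    · have := hB x y α β hx hy h
      rw [← h0] at this
      simp at this
      linarith
    · exact h0
  have hbase : ∀ x y α β, 0 < x → 0 < y → S.Pair x y α β →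
      0 ≤ S.N x y * (1 * α / x + -lam * β / y) := by
    intro x y α β hx hy h
    refine mul_nonneg (S.N0 x y) ?_
    have e : 1 * α / x + -lam * β / y = (α * y - lam * β * x) / (x * y) := by field_simp; ring
    rw [e]
    exact div_nonneg (sub_nonneg.2 (hl x y α β hx hy h)) (by positivity)
  have hα₀ := hαpos _ _ _ _ hx₀ hy₀ h₀
  have hβ₀ := h₀.2.1
  -- the cone `J`
  set r0 := y₀ / x₀ with hr0
  have hr0p : 0 < r0 := by positivity
  have hl0 : lam * β₀ / α₀ < r0 := by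
    rw [hr0, div_lt_div_iff₀ hα₀ hx₀]; linarith
  have hl00 : 0 ≤ lam * β₀ / α₀ := by positivity
  set r1 := (lam * β₀ / α₀ + r0) / 2 with hr1
  have hr1p : 0 < r1 := by linarith
  have hr10 : r1 < r0 := by linarith
  have hκ0 : 0 < α₀ - lam * β₀ / r1 := by
    have : lam * β₀ / α₀ < r1 := by linarith
    rw [div_lt_iff₀ hα₀] at this
    rw [sub_pos, div_lt_iff₀ hr1p]
    linarith
  set κ := S.c1 * (α₀ - lam * β₀ / r1) with hκdef
  have hκ : 0 < κ := by positivity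
  set J : Set (ℝ × ℝ) := {p | r1 ^ 2 * p.1 < p.2} ∩ {p | p.2 < r0 ^ 2 * p.1} with hJ
  have hJm : ∀ x y α β, 0 < x → 0 < y → S.Pair x y α β → (x ^ 2, y ^ 2) ∈ J →
      κ ≤ S.N x y * (1 * α / x + -lam * β / y) := by
    rintro x y α β hx hy h ⟨h1, h2⟩
    have h1' : (r1 * x) ^ 2 < y ^ 2 := by rw [mul_pow]; exact h1
    have h2' : y ^ 2 < (r0 * x) ^ 2 := by rw [mul_pow]; exact h2
    have h3 : r1 * x < y := lt_of_pow_lt_pow_left₀ 2 hy.le h1'
    have h4 : y < r0 * x := lt_of_pow_lt_pow_left₀ 2 (by positivity) h2'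
    have h5 : y * x₀ < y₀ * x := by
      rw [hr0, div_mul_eq_mul_div, lt_div_iff₀ hx₀] at h4; exact h4
    obtain ⟨m1, m2⟩ := h₀.mono h hx₀ hy₀ hx hy h5
    have e : S.N x y * (1 * α / x + -lam * β / y) = S.N x y / x * (α - lam * β * (x / y)) := by
      field_simp; ring
    rw [e]
    have h7 : S.c1 ≤ S.N x y / x := by rw [le_div_iff₀ hx]; exact S.N_ge_left x y
    refine mul_le_mul h7 ?_ hκ0.le (by linarith)
    have h8 : x / y ≤ 1 / r1 := by rw [div_le_div_iff₀ hy hr1p]; linarith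
    have h9 : lam * β * (x / y) ≤ lam * β₀ * (1 / r1) :=
      mul_le_mul (mul_le_mul_of_nonneg_left m2 hlam.le) h8 (by positivity) (by positivity)
    have e2 : lam * β₀ * (1 / r1) = lam * β₀ / r1 := by ring
    linarith
  -- the region seen from normals close to the first axis
  set a := S.N 1 0 with ha
  have hap : 0 < a := S.N_pos zero_le_one le_rfl (by norm_num)
  have hsq : r1 ^ 2 < r0 ^ 2 := pow_lt_pow_left₀ hr10 hr1p.le two_ne_zero
  have hmid : a ^ 2 / r0 ^ 2 < a ^ 2 / r1 ^ 2 :=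
    div_lt_div_of_pos_left (by positivity) (by positivity) hsq
  obtain ⟨a0, ha1, ha2⟩ := exists_between hmid
  have ha0 : 0 < a0 := lt_trans (by positivity) ha1
  rw [div_lt_iff₀ (by positivity)] at ha1
  rw [lt_div_iff₀ (by positivity)] at ha2
  have evε : ∀ᶠ ε in 𝓝[>] (0 : ℝ), r1 ^ 2 * (ε + a0) < a ^ 2 - ε ∧ a ^ 2 + ε < r0 ^ 2 * a0 := by
    refine nhdsWithin_le_nhds (Eventually.and ?_ ?_)
    · exact ContinuousAt.eventually_lt (by fun_prop) (by fun_prop) (by simp; linarith)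
    · exact ContinuousAt.eventually_lt (by fun_prop) (by fun_prop) (by simp; linarith)
  obtain ⟨ε, ⟨hε1, hε2⟩, hε⟩ := (evε.and self_mem_nhdsWithin).exists
  have hε : 0 < ε := hε
  set R : Set Ω := {ω | r1 ^ 2 * (ε * S.s ω ^ 2 + S.A ω) < (a ^ 2 - ε) * S.s ω ^ 2 + S.B ω} ∩
    {ω | (a ^ 2 + ε) * S.s ω ^ 2 + S.B ω < r0 ^ 2 * S.A ω} with hRdef
  have hR : IsOpen R := by
    have := S.cs; have := S.cA; have := S.cB
    exact (isOpen_lt (by fun_prop) (by fun_prop)).inter (isOpen_lt (by fun_prop) (by fun_prop))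
  obtain ⟨ω₀, w1, w2, w3⟩ := S.surj 1 a0 ha0.le
  have hg : 0 < S.gam R := by
    refine S.gam_pos hR (ω₀ := ω₀) ⟨?_, ?_⟩ (by rw [w1]; exact one_ne_zero)
    · change r1 ^ 2 * (ε * S.s ω₀ ^ 2 + S.A ω₀) < (a ^ 2 - ε) * S.s ω₀ ^ 2 + S.B ω₀
      rw [w1, w2, w3]; linarith
    · change (a ^ 2 + ε) * S.s ω₀ ^ 2 + S.B ω₀ < r0 ^ 2 * S.A ω₀
      rw [w1, w2, w3]; linarith
  have evδ : ∀ᶠ δ in 𝓝[>] (0 : ℝ), (C * δ / S.c1) ^ 2 < ε ∧ S.c2 * δ < a ∧
      a ^ 2 - ε < (a - S.c2 * δ) ^ 2 := by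
    refine nhdsWithin_le_nhds (Eventually.and ?_ (Eventually.and ?_ ?_))
    · exact ContinuousAt.eventually_lt (by fun_prop) (by fun_prop) (by simpa using hε)
    · exact ContinuousAt.eventually_lt (by fun_prop) (by fun_prop) (by simpa using hap)
    · exact ContinuousAt.eventually_lt (by fun_prop) (by fun_prop) (by simpa using hε)
  obtain ⟨δ, ⟨hδ1, hδ2, hδ3⟩, hδ⟩ := (evδ.and self_mem_nhdsWithin).exists
  have hδ : 0 < δ := hδ
  set η1 := 2 * (κ * S.gam R) / S.c with hη1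
  have hη1p : 0 < η1 := by positivity
  have near : ∀ x y α β, 0 < x → 0 < y → S.Pair x y α β → y ^ 2 < δ ^ 2 * x ^ 2 →
      (lam + η1 / C') * β * x ≤ α * y := by
    intro x y α β hx hy h hxy
    have hα := hαpos x y α β hx hy h
    rcases h.2.1.eq_or_lt with hβ | hβ
    · rw [← hβ]; simp only [mul_zero, zero_mul]; positivity
    refine S.gap hC' hη1p hx hα hβ (hB x y α β hx hy h) ?_
    have hyx : y < δ * x := by
      rw [← mul_pow] at hxy
      exact lt_of_pow_lt_pow_left₀ 2 (by positivity) hxy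
    have b1 : β ≤ C * δ / S.c1 := by
      rw [le_div_iff₀ hc1]
      refine le_of_mul_le_mul_right (a := x) ?_ hx
      have k1 := hA x y α β hx hy h
      have k2 := mul_le_mul_of_nonneg_right (S.N_ge_left x y) hβ.le
      have k3 := mul_le_mul_of_nonneg_left hyx.le hC.le
      nlinarith
    have b2 : β ^ 2 < ε := lt_of_le_of_lt (pow_le_pow_left₀ hβ.le b1 2) hδ1
    have a1 : a - S.c2 * δ ≤ α := by
      refine le_of_mul_le_mul_right (a := x) ?_ hx
      have k1 := S.N_mono hx hy.le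
      have k2 := h.2.2.2.1
      have k3 : β * y ≤ S.c2 * (δ * x) := mul_le_mul h.beta_le hyx.le hy.le hc2.le
      nlinarith
    have a2 : a ^ 2 - ε < α ^ 2 := lt_of_lt_of_le hδ3 (pow_le_pow_left₀ (by linarith) a1 2)
    have a3 : α ^ 2 ≤ a ^ 2 := pow_le_pow_left₀ hα.le h.alpha_le' 2
    have key := S.gain (p := 1) (q := -lam) hκ.le ((convex_above _).inter (convex_below _))
      ((open_above _).inter (open_below _)) hbase hJm hR hx hy h (Or.inl hα) (Or.inl hβ) ?_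
    · have e1 : S.N x y * η1 = 2 / S.c * (S.N x y * (κ * S.gam R)) := by rw [hη1]; ring
      have e2 : -lam * x / α + y / β = 2 / S.c * (S.c * (-lam * x / (2 * α) + 1 * y / (2 * β))) := by
        field_simp
      rw [e1, e2]
      exact mul_le_mul_of_nonneg_left key (by positivity)
    have ev1 : ∀ᶠ t in 𝓝 (0 : ℝ), 0 < β ^ 2 - 1 * t := by
      have : ContinuousAt (fun t : ℝ => β ^ 2 - 1 * t) 0 := by fun_prop
      exact this.eventually (lt_mem_nhds (by simpa using pow_pos hβ 2))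
    have ev2 : ∀ᶠ t in 𝓝 (0 : ℝ), lam * t < ε := by
      have : ContinuousAt (fun t : ℝ => lam * t) 0 := by fun_prop
      exact this.eventually (gt_mem_nhds (by simpa using hε))
    filter_upwards [ev1, ev2] with t ht1 ht2 ht0 ω hω
    obtain ⟨hω1, hω2⟩ := hω
    have hω1' : r1 ^ 2 * (ε * S.s ω ^ 2 + S.A ω) < (a ^ 2 - ε) * S.s ω ^ 2 + S.B ω := hω1
    have hω2' : (a ^ 2 + ε) * S.s ω ^ 2 + S.B ω < r0 ^ 2 * S.A ω := hω2
    have hs2 := sq_nonneg (S.s ω)
    have hlt0 : 0 ≤ lam * t := by positivity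
    constructor
    · change r1 ^ 2 * ((β ^ 2 - 1 * t) * S.s ω ^ 2 + S.A ω) < (α ^ 2 - -lam * t) * S.s ω ^ 2 + S.B ω
      have k1 : (β ^ 2 - 1 * t) * S.s ω ^ 2 ≤ ε * S.s ω ^ 2 :=
        mul_le_mul_of_nonneg_right (by linarith) hs2
      have k2 : (a ^ 2 - ε) * S.s ω ^ 2 ≤ (α ^ 2 - -lam * t) * S.s ω ^ 2 :=
        mul_le_mul_of_nonneg_right (by linarith) hs2
      have k3 : r1 ^ 2 * ((β ^ 2 - 1 * t) * S.s ω ^ 2 + S.A ω) ≤
          r1 ^ 2 * (ε * S.s ω ^ 2 + S.A ω) := mul_le_mul_of_nonneg_left (by linarith) (sq_nonneg _)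
      linarith
    · change (α ^ 2 - -lam * t) * S.s ω ^ 2 + S.B ω < r0 ^ 2 * ((β ^ 2 - 1 * t) * S.s ω ^ 2 + S.A ω)
      have k1 : 0 ≤ (β ^ 2 - 1 * t) * S.s ω ^ 2 := by positivity
      have k2 : (α ^ 2 - -lam * t) * S.s ω ^ 2 ≤ (a ^ 2 + ε) * S.s ω ^ 2 :=
        mul_le_mul_of_nonneg_right (by linarith) hs2
      have k3 : r0 ^ 2 * S.A ω ≤ r0 ^ 2 * ((β ^ 2 - 1 * t) * S.s ω ^ 2 + S.A ω) :=
        mul_le_mul_of_nonneg_left (by linarith) (sq_nonneg _)
      linarith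
  set η2 := η1 / C' with hη2
  have hη2p : 0 < η2 := by positivity
  obtain ⟨η3, hη3, H⟩ := S.gain_near (q := -lam) (κ := η2 / ((lam + η2) * C')) (θ := δ ^ 2)
    (by positivity) (by positivity) hbase (fun x y α β hx hy h hxy => by
      have k1 := near x y α β hx hy h hxy
      have k2 := hB x y α β hx hy h
      have hβ := h.2.1
      have hα := h.1
      have hN := S.N0 x y
      have e : S.N x y * (1 * α / x + -lam * β / y) =
          S.N x y * ((α * y - lam * β * x) / (x * y)) := by field_simp; ring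
      have k3 : η2 / (lam + η2) * (α * y) ≤ α * y - lam * β * x := by
        rw [div_mul_eq_mul_div, div_le_iff₀ (by positivity)]
        have := mul_le_mul_of_nonneg_left k1 hlam.le
        nlinarith
      rw [e]
      calc η2 / ((lam + η2) * C') = η2 / (lam + η2) * (x / (C' * x)) := by field_simp
        _ ≤ η2 / (lam + η2) * (C' * (S.N x y * α) / (C' * x)) := by gcongr
        _ = S.N x y * (η2 / (lam + η2) * (α * y) / (x * y)) := by field_simp
        _ ≤ _ := by gcongr)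
  refine ⟨η3 / C', by positivity, fun x y α β hx hy h => ?_⟩
  have hα := hαpos x y α β hx hy h
  rcases h.2.1.eq_or_lt with hβ | hβ
  · rw [← hβ]; simp only [mul_zero, zero_mul]; positivity
  exact S.gap hC' hη3 hx hα hβ (hB x y α β hx hy h) (H x y α β hx hy h (Or.inl hα) hβ)

theorem proportional : ∃ lam : ℝ, 0 < lam ∧ ∀ x y α β, 0 < x → 0 < y → S.Pair x y α β →
    lam * β * x = α * y := by
  obtain ⟨C, hC, hA⟩ := S.stepA
  obtain ⟨C', hC', hB⟩ := S.stepB hC hA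
  have hc1 := S.c1pos
  have hc2 := S.c2pos
  set T : Set ℝ := {l | ∀ x y α β, 0 < x → 0 < y → S.Pair x y α β → l * β * x ≤ α * y} with hT
  have hmem : 1 / (C * C') ∈ T := by
    intro x y α β hx hy h
    have k1 := hA x y α β hx hy h
    have k2 := hB x y α β hx hy h
    have hβ := h.2.1
    have hα := h.1
    have k3 : β * x ≤ β * (C' * (S.N x y * α)) := mul_le_mul_of_nonneg_left k2 hβ
    have k4 : C' * α * (S.N x y * β) ≤ C' * α * (C * y) :=
      mul_le_mul_of_nonneg_left k1 (by positivity)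
    rw [mul_assoc, div_mul_eq_mul_div, one_mul, div_le_iff₀ (by positivity)]
    nlinarith
  have hδ : 0 < S.c1 / (2 * S.c2) := by positivity
  obtain ⟨α₁, β₁, h₁⟩ := S.exists_pair hδ.le zero_le_one (by positivity)
  have hβ₁ : 0 < β₁ := by
    have k1 := S.N_ge_right (S.c1 / (2 * S.c2)) 1
    have k2 := h₁.2.2.2.1
    have k3 : α₁ * (S.c1 / (2 * S.c2)) ≤ S.c2 * (S.c1 / (2 * S.c2)) :=
      mul_le_mul_of_nonneg_right h₁.alpha_le hδ.le
    have e : S.c2 * (S.c1 / (2 * S.c2)) = S.c1 / 2 := by field_simp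
    linarith
  have hbdd : BddAbove T := by
    refine ⟨α₁ * 1 / (β₁ * (S.c1 / (2 * S.c2))), fun l hl => ?_⟩
    rw [le_div_iff₀ (by positivity), ← mul_assoc]
    exact hl _ _ _ _ hδ one_pos h₁
  have hcl : IsClosed T := by
    have : T = ⋂ x, ⋂ y, ⋂ α, ⋂ β, ⋂ (_ : 0 < x), ⋂ (_ : 0 < y), ⋂ (_ : S.Pair x y α β),
        {l : ℝ | l * β * x ≤ α * y} := by
      ext l; simp [hT]
    rw [this]
    refine isClosed_iInter fun x => isClosed_iInter fun y => isClosed_iInter fun α =>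
      isClosed_iInter fun β => isClosed_iInter fun _ => isClosed_iInter fun _ =>
      isClosed_iInter fun _ => isClosed_le (by fun_prop) (by fun_prop)
  have hsup : sSup T ∈ T := hcl.csSup_mem ⟨_, hmem⟩ hbdd
  have hpos : 0 < sSup T := lt_of_lt_of_le (by positivity) (le_csSup hbdd hmem)
  refine ⟨sSup T, hpos, fun x y α β hx hy h => ?_⟩
  by_contra hne
  have hlt : sSup T * β * x < α * y := lt_of_le_of_ne (hsup x y α β hx hy h) hne
  obtain ⟨η, hη, H⟩ := S.stepC hC hC' hpos hA hB hsup hx hy h hlt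
  have := le_csSup hbdd (show sSup T + η ∈ T from H)
  linarith

theorem core : ∃ lam : ℝ, 0 < lam ∧ ∀ x y : ℝ, 0 ≤ x → 0 ≤ y →
    S.N x y ^ 2 = S.N 0 1 ^ 2 * (lam * x ^ 2 + y ^ 2) := by
  obtain ⟨lam, hlam, H⟩ := S.proportional
  refine ⟨lam, hlam, fun x y hx hy => ?_⟩
  have h1 := S.incr convex_univ isOpen_univ (p := 1) (q := -lam) (m := 0)
    (fun x y α β hx hy h _ => by
      have e : 1 * α / x + -lam * β / y = (α * y - lam * β * x) / (x * y) := by field_simp; ring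
      rw [e, H x y α β hx hy h]; simp)
    (X := 0) (Y := lam * x ^ 2 + y ^ 2) (T := x ^ 2) (by positivity) le_rfl (by positivity)
    (by positivity) (by nlinarith [sq_nonneg y]) trivial trivial
  have h2 := S.incr convex_univ isOpen_univ (p := -1) (q := lam) (m := 0)
    (fun x y α β hx hy h _ => by
      have e : -1 * α / x + lam * β / y = (lam * β * x - α * y) / (x * y) := by field_simp; ring
      rw [e, H x y α β hx hy h]; simp)
    (X := x ^ 2) (Y := y ^ 2) (T := x ^ 2) (by positivity) (by positivity) (by positivity)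
    (by simp) (by positivity) trivial trivial
  have e1 : (0 : ℝ) + 1 * x ^ 2 = x ^ 2 := by ring
  have e2 : lam * x ^ 2 + y ^ 2 + -lam * x ^ 2 = y ^ 2 := by ring
  have e3 : x ^ 2 + -1 * x ^ 2 = 0 := by ring
  have e4 : y ^ 2 + lam * x ^ 2 = lam * x ^ 2 + y ^ 2 := by ring
  rw [e1, e2] at h1
  rw [e3, e4] at h2
  have h3 : S.F (x ^ 2) (y ^ 2) = S.F 0 (lam * x ^ 2 + y ^ 2) := by linarith
  have hZ : 0 ≤ lam * x ^ 2 + y ^ 2 := by positivity
  unfold F Fq at h3
  rw [sqrt_sq hx, sqrt_sq hy] at h3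
  rw [h3]
  have := S.hom (√(lam * x ^ 2 + y ^ 2)) 0 1 (sqrt_nonneg _)
  rw [mul_zero, mul_one] at this
  rw [sqrt_zero, this, mul_pow, sq_sqrt hZ, mul_comm]

end Setup

end Pool.Agent.MP_2a44fd_gt

end MrgPart2

-- marker of a merged file
example : 731051 + 634814 = 731051 + 634814 := rfl
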