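import Mathlib.Algebra.Order.Archimedean.Real.Hom
import Mathlib.MeasureTheory.Measure.Hausdorff
import Mathlib.MeasureTheory.Measure.Lebesgue.VolumeOfBalls
import Pool.Agent.MP_2a44fd_gt.Core

/-!
Geometric layer: central sections of a body with two rotation blocks.
-/

set_option autoImplicit false
set_option linter.unusedSectionVars false

open MeasureTheory Real Set Filter Topology Module
open scoped InnerProductSpace

namespace Pool.Agent.MP_2a44fd_gt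

variable {E : Type*} [NormedAddCommGroup E] [InnerProductSpace ℝ E] [FiniteDimensional ℝ E]
  [MeasurableSpace E] [BorelSpace E]

/-- A norm `g` that depends only on the lengths of the two block components. -/
structure GaugeData (V : Submodule ℝ E) (g : E → ℝ) (c1 c2 : ℝ) : Prop where
  cont : Continuous g
  smul : ∀ (r : ℝ) x, g (r • x) = |r| * g x
  add : ∀ x y, g (x + y) ≤ g x + g y
  c1pos : 0 < c1
  c2pos : 0 < c2
  lower : ∀ x, c1 * ‖x‖ ≤ g x
  upper : ∀ x, g x ≤ c2 * ‖x‖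
  inv : ∀ x y, ‖V.starProjection x‖ = ‖V.starProjection y‖ →
    ‖Vᗮ.starProjection x‖ = ‖Vᗮ.starProjection y‖ → g x = g y

/-- Hausdorff measure of the central section orthogonal to `u`. -/
noncomputable def sec (d : ℝ) (g : E → ℝ) (u : E) : ℝ :=
  (Measure.hausdorffMeasure d ({x | g x ≤ 1} ∩ {z | ⟪u, z⟫_ℝ = 0})).toReal

section frame

variable {V : Submodule ℝ E} {e f : E}

theorem PV_comb (he : e ∈ V) (hf : f ∈ Vᗮ) (x y : ℝ) :
    V.starProjection (x • e + y • f) = x • e := by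
  rw [map_add, map_smul, map_smul, Submodule.starProjection_eq_self_iff.2 he,
    (Submodule.starProjection_apply_eq_zero_iff V).2 hf]
  simp

theorem PW_comb (he : e ∈ V) (hf : f ∈ Vᗮ) (x y : ℝ) :
    Vᗮ.starProjection (x • e + y • f) = y • f := by
  rw [map_add, map_smul, map_smul, Submodule.starProjection_eq_self_iff.2 hf,
    Submodule.starProjection_orthogonal_apply_eq_zero he]
  simp

theorem inner_ef (he : e ∈ V) (hf : f ∈ Vᗮ) : ⟪e, f⟫_ℝ = 0 :=
  Submodule.inner_right_of_mem_orthogonal he hf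

theorem inner_fe (he : e ∈ V) (hf : f ∈ Vᗮ) : ⟪f, e⟫_ℝ = 0 := by
  rw [real_inner_comm]; exact inner_ef he hf

theorem inner_PV (he : e ∈ V) (y : E) : ⟪e, V.starProjection y⟫_ℝ = ⟪e, y⟫_ℝ := by
  rw [← Submodule.inner_starProjection_left_eq_right, Submodule.starProjection_eq_self_iff.2 he]

theorem norm_comb_sq (he : e ∈ V) (hf : f ∈ Vᗮ) (ne : ‖e‖ = 1) (nf : ‖f‖ = 1) (x y : ℝ) :
    ‖x • e + y • f‖ ^ 2 = x ^ 2 + y ^ 2 := by
  rw [Submodule.norm_sq_eq_add_norm_sq_starProjection _ V, PV_comb he hf, PW_comb he hf,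
    norm_smul, norm_smul, ne, nf]
  simp

theorem inner_comb (he : e ∈ V) (hf : f ∈ Vᗮ) (ne : ‖e‖ = 1) (nf : ‖f‖ = 1) (α β x y : ℝ) :
    ⟪α • e + β • f, x • e + y • f⟫_ℝ = α * x + β * y := by
  simp only [inner_add_left, inner_add_right, real_inner_smul_left, real_inner_smul_right,
    inner_ef he hf, inner_fe he hf, real_inner_self_eq_norm_sq, ne, nf]
  ring

theorem GaugeData.eq_N {g : E → ℝ} {c1 c2 : ℝ} (G : GaugeData V g c1 c2) (he : e ∈ V)
    (hf : f ∈ Vᗮ) (ne : ‖e‖ = 1) (nf : ‖f‖ = 1) (z : E) :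
    g z = g (‖V.starProjection z‖ • e + ‖Vᗮ.starProjection z‖ • f) := by
  apply G.inv
  · rw [PV_comb he hf, norm_smul, ne]; simp
  · rw [PW_comb he hf, norm_smul, nf]; simp

theorem refl_sub (v z : E) : ∃ t : ℝ, (ℝ ∙ v)ᗮ.reflection z = z - t • v := by
  refine ⟨2 * (⟪v, z⟫_ℝ / ‖v‖ ^ 2), ?_⟩
  rw [Submodule.reflection_orthogonal_apply, Submodule.reflection_singleton_apply, mul_smul,
    two_smul, two_smul]
  simp

theorem refl_fix {v z : E} (h : ⟪v, z⟫_ℝ = 0) : (ℝ ∙ v)ᗮ.reflection z = z :=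
  Submodule.reflection_mem_subspace_eq_self
    (Submodule.mem_orthogonal_singleton_iff_inner_right.2 h)

theorem norms_of_left (R : E ≃ₗᵢ[ℝ] E) (z : E)
    (h : ‖V.starProjection (R z)‖ = ‖V.starProjection z‖) :
    ‖Vᗮ.starProjection (R z)‖ = ‖Vᗮ.starProjection z‖ := by
  have h1 := Submodule.norm_sq_eq_add_norm_sq_starProjection (R z) V
  have h2 := Submodule.norm_sq_eq_add_norm_sq_starProjection z V
  rw [R.norm_map, h] at h1
  exact (sq_eq_sq₀ (norm_nonneg _) (norm_nonneg _)).1 (by linarith)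

theorem norms_of_right (R : E ≃ₗᵢ[ℝ] E) (z : E)
    (h : ‖Vᗮ.starProjection (R z)‖ = ‖Vᗮ.starProjection z‖) :
    ‖V.starProjection (R z)‖ = ‖V.starProjection z‖ := by
  have h1 := Submodule.norm_sq_eq_add_norm_sq_starProjection (R z) V
  have h2 := Submodule.norm_sq_eq_add_norm_sq_starProjection z V
  rw [R.norm_map, h] at h1
  exact (sq_eq_sq₀ (norm_nonneg _) (norm_nonneg _)).1 (by linarith)

theorem exists_iso (he : e ∈ V) (hf : f ∈ Vᗮ) (ne : ‖e‖ = 1) (nf : ‖f‖ = 1) (u : E) :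
    ∃ R : E ≃ₗᵢ[ℝ] E, (∀ z, ‖V.starProjection (R z)‖ = ‖V.starProjection z‖ ∧
      ‖Vᗮ.starProjection (R z)‖ = ‖Vᗮ.starProjection z‖) ∧
      R u = ‖V.starProjection u‖ • e + ‖Vᗮ.starProjection u‖ • f := by
  set a := V.starProjection u with ha
  set b := Vᗮ.starProjection u with hb
  have haV : a ∈ V := V.starProjection_apply_mem u
  have hbV : b ∈ Vᗮ := Vᗮ.starProjection_apply_mem u
  have hv : a - ‖a‖ • e ∈ V := V.sub_mem haV (V.smul_mem _ he)
  have hw : b - ‖b‖ • f ∈ Vᗮ := Vᗮ.sub_mem hbV (Vᗮ.smul_mem _ hf)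
  set R1 := (ℝ ∙ (a - ‖a‖ • e))ᗮ.reflection with hR1
  set R2 := (ℝ ∙ (b - ‖b‖ • f))ᗮ.reflection with hR2
  have p1 : ∀ z, ‖Vᗮ.starProjection (R1 z)‖ = ‖Vᗮ.starProjection z‖ := by
    intro z
    obtain ⟨t, ht⟩ := refl_sub (a - ‖a‖ • e) z
    rw [hR1, ht, map_sub, map_smul, Submodule.starProjection_orthogonal_apply_eq_zero hv]
    simp
  have p2 : ∀ z, ‖V.starProjection (R2 z)‖ = ‖V.starProjection z‖ := by
    intro z
    obtain ⟨t, ht⟩ := refl_sub (b - ‖b‖ • f) z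
    rw [hR2, ht, map_sub, map_smul, (Submodule.starProjection_apply_eq_zero_iff V).2 hw]
    simp
  refine ⟨R1.trans R2, fun z => ⟨?_, ?_⟩, ?_⟩
  · rw [LinearIsometryEquiv.trans_apply, p2, norms_of_right R1 z (p1 z)]
  · rw [LinearIsometryEquiv.trans_apply, norms_of_left R2 _ (p2 _), p1]
  · have hu : u = a + b := (V.starProjection_add_starProjection_orthogonal u).symm
    have q1 : R1 a = ‖a‖ • e := Submodule.reflection_sub (by rw [norm_smul, ne]; simp)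
    have q2 : R1 b = b := refl_fix (Submodule.inner_right_of_mem_orthogonal hv hbV)
    have q3 : R2 b = ‖b‖ • f := Submodule.reflection_sub (by rw [norm_smul, nf]; simp)
    have q4 : R2 (‖a‖ • e) = ‖a‖ • e :=
      refl_fix (Submodule.inner_left_of_mem_orthogonal (V.smul_mem _ he) hw)
    rw [LinearIsometryEquiv.trans_apply]
    conv_lhs => rw [hu]
    rw [map_add, q1, q2, map_add, q3, q4]

theorem sec_iso {g : E → ℝ} (d : ℝ) (R : E ≃ₗᵢ[ℝ] E) (hR : ∀ z, g (R z) = g z) (u : E) :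
    sec d g (R u) = sec d g u := by
  unfold sec
  congr 1
  rw [← R.isometry.hausdorffMeasure_image (Or.inr R.surjective)
    ({x | g x ≤ 1} ∩ {z | ⟪u, z⟫_ℝ = 0})]
  congr 1
  ext z
  constructor
  · rintro ⟨h1, h2⟩
    refine ⟨R.symm z, ⟨?_, ?_⟩, by simp⟩
    · change g (R.symm z) ≤ 1
      rw [← hR]; simpa using h1
    · change ⟪u, R.symm z⟫_ℝ = 0
      rw [← R.inner_map_map]; simpa using h2
  · rintro ⟨w, ⟨h1, h2⟩, rfl⟩
    refine ⟨?_, ?_⟩
    · change g (R w) ≤ 1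
      rw [hR]; exact h1
    · change ⟪R u, R w⟫_ℝ = 0
      rw [R.inner_map_map]; exact h2

/-- coordinate along `e` -/
noncomputable def sC (e f : E) (y : (ℝ ∙ f)ᗮ) : ℝ := ⟪e, (y : E)⟫_ℝ

/-- squared length of the rest of the first block -/
noncomputable def AC (V : Submodule ℝ E) (e f : E) (y : (ℝ ∙ f)ᗮ) : ℝ :=
  ‖V.starProjection (y : E) - ⟪e, (y : E)⟫_ℝ • e‖ ^ 2

/-- squared length of the second block -/
noncomputable def BC (V : Submodule ℝ E) (f : E) (y : (ℝ ∙ f)ᗮ) : ℝ :=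
  ‖Vᗮ.starProjection (y : E)‖ ^ 2

/-- parametrisation of the hyperplane orthogonal to `α e + β f` -/
noncomputable def Psi (e f : E) (α β : ℝ) : (ℝ ∙ f)ᗮ →ₗ[ℝ] E where
  toFun y := (y : E) + ⟪e, (y : E)⟫_ℝ • ((β - 1) • e + (-α) • f)
  map_add' x y := by simp only [Submodule.coe_add, inner_add_right, add_smul]; abel
  map_smul' r x := by
    simp only [Submodule.coe_smul, real_inner_smul_right, RingHom.id_apply, smul_add, mul_smul]

theorem Psi_apply (α β : ℝ) (y : (ℝ ∙ f)ᗮ) :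
    Psi e f α β y = (y : E) + ⟪e, (y : E)⟫_ℝ • ((β - 1) • e + (-α) • f) := rfl

theorem inner_f_coe (y : (ℝ ∙ f)ᗮ) : ⟪f, (y : E)⟫_ℝ = 0 :=
  Submodule.mem_orthogonal_singleton_iff_inner_right.1 y.2

theorem PV_Psi (he : e ∈ V) (hf : f ∈ Vᗮ) (ne : ‖e‖ = 1) (α β : ℝ) (y : (ℝ ∙ f)ᗮ) :
    ‖V.starProjection (Psi e f α β y)‖ ^ 2 = β ^ 2 * sC e f y ^ 2 + AC V e f y := by
  rw [Psi_apply, map_add, map_smul, PV_comb he hf]
  have e1 : V.starProjection (y : E) + ⟪e, (y : E)⟫_ℝ • (β - 1) • e =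
      (β * ⟪e, (y : E)⟫_ℝ) • e + (V.starProjection (y : E) - ⟪e, (y : E)⟫_ℝ • e) := by
    module
  rw [e1, norm_add_sq_real, real_inner_smul_left, inner_sub_right, inner_PV he,
    real_inner_smul_right, real_inner_self_eq_norm_sq, norm_smul, ne]
  unfold sC AC
  simp [mul_pow]

theorem PW_Psi (he : e ∈ V) (hf : f ∈ Vᗮ) (nf : ‖f‖ = 1) (α β : ℝ) (y : (ℝ ∙ f)ᗮ) :
    ‖Vᗮ.starProjection (Psi e f α β y)‖ ^ 2 = α ^ 2 * sC e f y ^ 2 + BC V f y := by
  rw [Psi_apply, map_add, map_smul, PW_comb he hf, add_comm, norm_add_sq_real,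
    real_inner_smul_left, real_inner_smul_left, inner_PV hf, inner_f_coe, norm_smul, norm_smul, nf]
  unfold sC BC
  simp [mul_pow, mul_comm]

theorem rho_eq (he : e ∈ V) (hf : f ∈ Vᗮ) (ne : ‖e‖ = 1) (nf : ‖f‖ = 1) (y : (ℝ ∙ f)ᗮ) :
    sC e f y ^ 2 + AC V e f y + BC V f y = ‖y‖ ^ 2 := by
  have h1 := PV_Psi he hf ne 0 1 y
  have h2 := PW_Psi he hf nf 0 1 y
  have h3 : Psi e f 0 1 y = y := by simp [Psi_apply]
  rw [h3] at h1 h2
  have := Submodule.norm_sq_eq_add_norm_sq_starProjection (y : E) V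
  rw [Submodule.coe_norm]
  linarith

theorem norm_Psi (he : e ∈ V) (hf : f ∈ Vᗮ) (ne : ‖e‖ = 1) (nf : ‖f‖ = 1) {α β : ℝ}
    (hu : α ^ 2 + β ^ 2 = 1) (y : (ℝ ∙ f)ᗮ) : ‖Psi e f α β y‖ = ‖y‖ := by
  refine (sq_eq_sq₀ (norm_nonneg _) (norm_nonneg _)).1 ?_
  rw [Submodule.norm_sq_eq_add_norm_sq_starProjection _ V, PV_Psi he hf ne, PW_Psi he hf nf,
    ← rho_eq he hf ne nf]
  linear_combination sC e f y ^ 2 * hu

theorem g_Psi {g : E → ℝ} {c1 c2 : ℝ} (G : GaugeData V g c1 c2) (he : e ∈ V)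
    (hf : f ∈ Vᗮ) (ne : ‖e‖ = 1) (nf : ‖f‖ = 1) (α β : ℝ) (y : (ℝ ∙ f)ᗮ) :
    g (Psi e f α β y) ^ 2 = Fq (fun a b => g (a • e + b • f))
      (β ^ 2 * sC e f y ^ 2 + AC V e f y) (α ^ 2 * sC e f y ^ 2 + BC V f y) := by
  rw [← PV_Psi he hf ne α β, ← PW_Psi he hf nf α β]
  unfold Fq
  rw [sqrt_sq (norm_nonneg _), sqrt_sq (norm_nonneg _)]
  exact congrArg (· ^ 2) (G.eq_N he hf ne nf _)

theorem image_Psi {g : E → ℝ} (he : e ∈ V) (hf : f ∈ Vᗮ) (ne : ‖e‖ = 1) (nf : ‖f‖ = 1) {α β : ℝ}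
    (hu : α ^ 2 + β ^ 2 = 1) :
    {x | g x ≤ 1} ∩ {z | ⟪α • e + β • f, z⟫_ℝ = 0} =
      Psi e f α β '' {y | g (Psi e f α β y) ≤ 1} := by
  have hee : ⟪e, e⟫_ℝ = 1 := by rw [real_inner_self_eq_norm_sq, ne]; simp
  have hff : ⟪f, f⟫_ℝ = 1 := by rw [real_inner_self_eq_norm_sq, nf]; simp
  ext z
  constructor
  · rintro ⟨h1, h2⟩
    have h2' : α * ⟪e, z⟫_ℝ + β * ⟪f, z⟫_ℝ = 0 := by
      have : ⟪α • e + β • f, z⟫_ℝ = 0 := h2
      rwa [inner_add_left, real_inner_smul_left, real_inner_smul_left] at this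
    set σ := β * ⟪e, z⟫_ℝ - α * ⟪f, z⟫_ℝ with hσ
    have hy : z - σ • ((β - 1) • e + (-α) • f) ∈ (ℝ ∙ f)ᗮ := by
      rw [Submodule.mem_orthogonal_singleton_iff_inner_right]
      simp only [inner_sub_right, inner_add_right, real_inner_smul_right, inner_fe he hf, hff]
      rw [hσ]
      linear_combination β * h2' - ⟪f, z⟫_ℝ * hu
    have hs : ⟪e, z - σ • ((β - 1) • e + (-α) • f)⟫_ℝ = σ := by
      simp only [inner_sub_right, inner_add_right, real_inner_smul_right, inner_ef he hf, hee]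
      rw [hσ]
      linear_combination α * h2' - ⟪e, z⟫_ℝ * hu
    have hz : Psi e f α β ⟨_, hy⟩ = z := by
      rw [Psi_apply]
      simp only [hs]
      abel
    exact ⟨⟨_, hy⟩, by change g _ ≤ 1; rw [hz]; exact h1, hz⟩
  · rintro ⟨y, hy, rfl⟩
    refine ⟨hy, ?_⟩
    change ⟪α • e + β • f, Psi e f α β y⟫_ℝ = 0
    rw [Psi_apply]
    simp only [inner_add_left, inner_add_right, real_inner_smul_right, real_inner_smul_left,
      inner_fe he hf, inner_ef he hf, hee, hff, inner_f_coe]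
    ring

theorem sec_eq {g : E → ℝ} {c1 c2 : ℝ} (G : GaugeData V g c1 c2) (he : e ∈ V)
    (hf : f ∈ Vᗮ) (ne : ‖e‖ = 1) (nf : ‖f‖ = 1) {α β : ℝ} (hu : α ^ 2 + β ^ 2 = 1) :
    sec (finrank ℝ (ℝ ∙ f)ᗮ) g (α • e + β • f) =
      Av (Measure.hausdorffMeasure (finrank ℝ (ℝ ∙ f)ᗮ)) (sC e f) (AC V e f) (BC V f)
        (fun a b => g (a • e + b • f)) (α ^ 2) (β ^ 2) /
        Gamma ((finrank ℝ (ℝ ∙ f)ᗮ : ℝ) / 2 + 1) := by
  have hiso : Isometry (Psi e f α β) :=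
    AddMonoidHomClass.isometry_of_norm _ (norm_Psi he hf ne nf hu)
  have heQ : e ∈ (ℝ ∙ f)ᗮ := Submodule.mem_orthogonal_singleton_iff_inner_right.2 (inner_fe he hf)
  have hnt : Nontrivial (ℝ ∙ f)ᗮ := ⟨⟨⟨e, heQ⟩, 0, fun h => by
    have : e = 0 := congrArg Subtype.val h
    rw [this, norm_zero] at ne
    exact zero_ne_one ne⟩⟩
  have h0 : g 0 = 0 := by simpa using G.smul 0 0
  have h1 : (fun y => g (Psi e f α β y)) 0 = 0 := by simp [h0]
  have h2 : ∀ y, (fun y => g (Psi e f α β y)) (-y) = (fun y => g (Psi e f α β y)) y := by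
    intro y
    have := G.smul (-1) (Psi e f α β y)
    simpa using this
  have h3 : ∀ x y, (fun y => g (Psi e f α β y)) (x + y) ≤
      (fun y => g (Psi e f α β y)) x + (fun y => g (Psi e f α β y)) y := by
    intro x y
    simpa using G.add (Psi e f α β x) (Psi e f α β y)
  have h4 : ∀ {y}, (fun y => g (Psi e f α β y)) y = 0 → y = 0 := by
    intro y hy
    have k := G.lower (Psi e f α β y)
    have hy' : g (Psi e f α β y) = 0 := hy
    rw [hy', norm_Psi he hf ne nf hu] at k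
    have := G.c1pos
    have k2 : ‖y‖ ≤ 0 := by
      by_contra hc
      push Not at hc
      have := mul_pos G.c1pos hc
      linarith
    exact norm_le_zero_iff.1 k2
  have h5 : ∀ (r : ℝ) y, (fun y => g (Psi e f α β y)) (r • y) ≤
      |r| * (fun y => g (Psi e f α β y)) y := by
    intro r y
    simp only [map_smul, G.smul]
    exact le_rfl
  unfold sec
  rw [image_Psi he hf ne nf hu, hiso.hausdorffMeasure_image (Or.inl (Nat.cast_nonneg _)),
    measure_le_eq_lt _ h1 h2 h3 h4 h5 1,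
    measure_lt_one_eq_integral_div_gamma _ h1 h2 h3 h4 h5 two_pos, ENNReal.toReal_ofReal]
  · unfold Av
    congr 2
    ext y
    rw [← g_Psi G he hf ne nf, rpow_two]
  · exact div_nonneg (integral_nonneg fun _ => (exp_pos _).le) (Gamma_pos_of_pos (by positivity)).le

end frame

end Pool.Agent.MP_2a44fd_gt
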