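import Mathlib.LinearAlgebra.FreeModule.PID
import Mathlib.Analysis.SpecialFunctions.Gaussian.FourierTransform
import Mathlib.LinearAlgebra.Transvection.Basic
import Mathlib.RingTheory.SimpleRing.Principal
import Pool.Agent.MP_2a44fd_gt.Geom

/-!
The fifth Busemann-Petty problem for bodies with two rotation blocks.
-/

set_option autoImplicit false
set_option linter.unusedSectionVars false

open MeasureTheory Real Set Filter Topology Module
open scoped InnerProductSpace Pointwise

namespace Pool.Agent.MP_2a44fd_gt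

variable {E : Type*} [NormedAddCommGroup E] [InnerProductSpace ℝ E] [FiniteDimensional ℝ E]
  [MeasurableSpace E] [BorelSpace E]

theorem gauss_int (μ : Measure E) [μ.IsAddHaarMeasure] {k : ℝ} (hk : 0 < k) :
    Integrable (fun y : E => exp (-(k * ‖y‖ ^ 2))) μ := by
  have h1 := (GaussianFourier.integrable_cexp_neg_mul_sq_norm_add (V := E) (b := (k : ℂ))
    (by simpa using hk) 0 0).norm
  have h2 : Integrable (fun y : E => exp (-(k * ‖y‖ ^ 2))) volume := by
    refine h1.congr (ae_of_all _ fun y => ?_)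
    simp only [Complex.norm_exp]
    congr 1
    simp [← Complex.ofReal_pow]
  rw [Measure.isAddLeftInvariant_eq_smul μ volume]
  exact h2.smul_measure_nnreal

variable {V : Submodule ℝ E} {e f : E}

theorem cont_N {g : E → ℝ} (hg : Continuous g) :
    Continuous (fun p : ℝ × ℝ => g (p.1 • e + p.2 • f)) := hg.comp (by fun_prop)

theorem av_hom {g : E → ℝ} (hg : Continuous g) (he : e ∈ V) (hf : f ∈ Vᗮ) (ne : ‖e‖ = 1)
    (μ : Measure (ℝ ∙ f)ᗮ) [μ.IsAddHaarMeasure] {r : ℝ} (hr : 0 < r) (P Q : ℝ) :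
    Av μ (sC e f) (AC V e f) (BC V f) (fun a b => g (a • e + b • f)) (r ^ 2 * P) (r ^ 2 * Q) =
      Av μ (sC e f) (AC V e f) (BC V f) (fun a b => g (a • e + b • f)) P Q / r := by
  have heQ : e ∈ (ℝ ∙ f)ᗮ := Submodule.mem_orthogonal_singleton_iff_inner_right.2 (inner_fe he hf)
  have hee : ⟪e, e⟫_ℝ = 1 := by rw [real_inner_self_eq_norm_sq, ne]; simp
  set φ : Module.Dual ℝ (ℝ ∙ f)ᗮ := (r - 1) • ((innerₛₗ ℝ e).comp (ℝ ∙ f)ᗮ.subtype) with hφ
  set T := LinearMap.transvection φ ⟨e, heQ⟩ with hT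
  have hTa : ∀ y : (ℝ ∙ f)ᗮ, (T y : E) = y + ((r - 1) * ⟪e, (y : E)⟫_ℝ) • e := by
    intro y; simp [hT, hφ, LinearMap.transvection.apply]
  have hdet : LinearMap.det T = r := by
    rw [hT, LinearMap.transvection.det]
    simp [hφ, ne]
  have hs : ∀ y, sC e f (T y) = r * sC e f y := by
    intro y
    unfold sC
    rw [hTa, inner_add_right, real_inner_smul_right, hee]; ring
  have hA : ∀ y, AC V e f (T y) = AC V e f y := by
    intro y
    have := hs y
    unfold sC at this
    unfold AC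
    rw [this, hTa, map_add, map_smul, Submodule.starProjection_eq_self_iff.2 he]
    congr 2
    module
  have hB : ∀ y, BC V f (T y) = BC V f y := by
    intro y
    unfold BC
    rw [hTa, map_add, map_smul, Submodule.starProjection_orthogonal_apply_eq_zero he]
    simp
  set h : (ℝ ∙ f)ᗮ → ℝ := fun y => exp (-(Fq (fun a b => g (a • e + b • f))
    (Q * sC e f y ^ 2 + AC V e f y) (P * sC e f y ^ 2 + BC V f y))) with hh
  have hc : Continuous h := by
    simp only [hh]
    unfold Fq sC AC BC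
    fun_prop
  have hmap := Measure.map_linearMap_addHaar_eq_smul_addHaar μ (f := T) (by rw [hdet]; exact hr.ne')
  have h1 : ∫ y, h y ∂(μ.map T) = ∫ y, h (T y) ∂μ :=
    integral_map T.continuous_of_finiteDimensional.aemeasurable hc.aestronglyMeasurable
  rw [hmap, integral_smul_measure, hdet, ENNReal.toReal_ofReal (abs_nonneg _),
    abs_of_pos (inv_pos.2 hr), smul_eq_mul] at h1
  unfold Av
  rw [div_eq_inv_mul]
  refine Eq.trans ?_ h1.symm
  congr 1
  ext y
  simp only [hh, hs, hA, hB, mul_pow]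
  congr 3 <;> ring

theorem geo_core {g : E → ℝ} {c1 c2 : ℝ} (G : GaugeData V g c1 c2) (he : e ∈ V)
    (hf : f ∈ Vᗮ) (ne : ‖e‖ = 1) (nf : ‖f‖ = 1) {e' : E} (he' : e' ∈ V) (ne' : ‖e'‖ = 1)
    (hee' : ⟪e, e'⟫_ℝ = 0) {d c : ℝ} (hd : d = finrank ℝ (ℝ ∙ f)ᗮ) (hc : 0 < c)
    (h1 : ∀ u w : E, ‖u‖ = 1 → sec d g u * ⟪u, w⟫_ℝ ≤ c * g w)
    (h2 : ∀ (w : E) (r : ℝ), w ≠ 0 → 1 < r →
      ∃ u : E, ‖u‖ = 1 ∧ c * g w ≤ r * (sec d g u * ⟪u, w⟫_ℝ)) :
    ∃ lam : ℝ, 0 < lam ∧ ∀ z, g z ^ 2 =
      g f ^ 2 * (lam * ‖V.starProjection z‖ ^ 2 + ‖Vᗮ.starProjection z‖ ^ 2) := by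
  subst hd
  set Γ := Gamma ((finrank ℝ (ℝ ∙ f)ᗮ : ℝ) / 2 + 1) with hΓ
  have hΓp : 0 < Γ := Gamma_pos_of_pos (by positivity)
  have hee : ⟪e, e⟫_ℝ = 1 := by rw [real_inner_self_eq_norm_sq, ne]; simp
  have g0 : ∀ z, 0 ≤ g z := fun z => le_trans (mul_nonneg G.c1pos.le (norm_nonneg _)) (G.lower z)
  let S : Setup (ℝ ∙ f)ᗮ :=
    { μ := Measure.hausdorffMeasure (finrank ℝ (ℝ ∙ f)ᗮ)
      s := sC e f
      A := AC V e f
      B := BC V f
      N := fun a b => g (a • e + b • f)
      c := c * Γ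
      c1 := c1
      c2 := c2
      openPos := inferInstance
      cs := by unfold sC; fun_prop
      cA := by unfold AC; fun_prop
      cB := by unfold BC; fun_prop
      A0 := fun y => sq_nonneg _
      B0 := fun y => sq_nonneg _
      surj := fun σ a ha => by
        have hV : σ • e + √a • e' ∈ V := V.add_mem (V.smul_mem _ he) (V.smul_mem _ he')
        have hQ : σ • e + √a • e' ∈ (ℝ ∙ f)ᗮ :=
          Submodule.mem_orthogonal_singleton_iff_inner_right.2 (inner_fe hV hf)
        have hs : ⟪e, σ • e + √a • e'⟫_ℝ = σ := by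
          rw [inner_add_right, real_inner_smul_right, real_inner_smul_right, hee, hee']; ring
        refine ⟨⟨_, hQ⟩, hs, ?_, ?_⟩
        · unfold AC
          simp only [hs, Submodule.starProjection_eq_self_iff.2 hV, add_sub_cancel_left, norm_smul,
            ne', mul_one, Real.norm_eq_abs, sq_abs, sq_sqrt ha]
        · unfold BC
          simp only [Submodule.starProjection_orthogonal_apply_eq_zero hV]
          simp
      gauss := fun k hk => by
        simp only [rho_eq he hf ne nf]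
        exact gauss_int _ hk
      cN := cont_N G.cont
      hom := fun r x y hr => by
        have : (r * x) • e + (r * y) • f = r • (x • e + y • f) := by module
        rw [this, G.smul, abs_of_nonneg hr]
      N0 := fun x y => g0 _
      cpos := mul_pos hc hΓp
      c1pos := G.c1pos
      c2pos := G.c2pos
      lower := fun x y => by
        rw [← norm_comb_sq he hf ne nf, ← mul_pow]
        exact pow_le_pow_left₀ (mul_nonneg G.c1pos.le (norm_nonneg _)) (G.lower _) 2
      upper := fun x y => by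
        rw [← norm_comb_sq he hf ne nf, ← mul_pow]
        exact pow_le_pow_left₀ (g0 _) (G.upper _) 2
      avHom := fun r P Q hr _ _ _ => av_hom G.cont he hf ne _ hr P Q
      t1 := fun α β x y _ _ hu _ _ => by
        have hn : ‖α • e + β • f‖ = 1 := by
          have := norm_comb_sq he hf ne nf α β
          rw [hu] at this
          exact (sq_eq_sq₀ (norm_nonneg _) zero_le_one).1 (by rw [this]; simp)
        have := h1 (α • e + β • f) (x • e + y • f) hn
        rw [sec_eq G he hf ne nf hu, inner_comb he hf ne nf, ← hΓ, div_mul_eq_mul_div,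
          div_le_iff₀ hΓp] at this
        linarith
      t2 := fun x y r hx hy hxy hr => by
        have hw : x • e + y • f ≠ 0 := by
          intro h0
          have := norm_comb_sq he hf ne nf x y
          rw [h0, norm_zero] at this
          nlinarith [mul_nonneg hx hy, mul_pos hxy hxy]
        obtain ⟨u, hu, hle⟩ := h2 _ r hw hr
        obtain ⟨R, hR, hRu⟩ := exists_iso he hf ne nf u
        have hunit : ‖V.starProjection u‖ ^ 2 + ‖Vᗮ.starProjection u‖ ^ 2 = 1 := by
          rw [← Submodule.norm_sq_eq_add_norm_sq_starProjection u V, hu]; simp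
        refine ⟨_, _, norm_nonneg _, norm_nonneg _, hunit, ?_⟩
        have k1 := sec_iso (g := g) (finrank ℝ (ℝ ∙ f)ᗮ) R
          (fun z => G.inv _ _ (hR z).1 (hR z).2) u
        rw [hRu, sec_eq G he hf ne nf hunit, ← hΓ] at k1
        have k2 : ⟪u, x • e + y • f⟫_ℝ ≤ ‖V.starProjection u‖ * x + ‖Vᗮ.starProjection u‖ * y := by
          rw [inner_add_right, real_inner_smul_right, real_inner_smul_right, real_inner_comm e,
            real_inner_comm f, ← inner_PV he, ← inner_PV hf]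
          have a1 := real_inner_le_norm e (V.starProjection u)
          have a2 := real_inner_le_norm f (Vᗮ.starProjection u)
          rw [ne, one_mul] at a1
          rw [nf, one_mul] at a2
          nlinarith [mul_le_mul_of_nonneg_left a1 hx, mul_le_mul_of_nonneg_left a2 hy]
        have k3 : 0 ≤ sec (finrank ℝ (ℝ ∙ f)ᗮ) g u := ENNReal.toReal_nonneg
        have k4 := hle.trans (mul_le_mul_of_nonneg_left (mul_le_mul_of_nonneg_left k2 k3)
          (by linarith))
        rw [← k1] at k4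
        have k5 := mul_le_mul_of_nonneg_right k4 hΓp.le
        refine le_trans (le_of_eq (by ring)) (k5.trans (le_of_eq ?_))
        field_simp }
  obtain ⟨lam, hlam, H⟩ := S.core
  refine ⟨lam, hlam, fun z => ?_⟩
  have := H _ _ (norm_nonneg (V.starProjection z)) (norm_nonneg (Vᗮ.starProjection z))
  simp only [S, zero_smul, one_smul, zero_add] at this
  rw [G.eq_N he hf ne nf z]
  exact this

theorem ellipsoid_of (V : Submodule ℝ E) {p q : ℝ} (hp : 0 < p) (hq : 0 < q) :
    ∃ A : E ≃ₗ[ℝ] E, {z | p * ‖V.starProjection z‖ ^ 2 + q * ‖Vᗮ.starProjection z‖ ^ 2 ≤ 1} =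
      A '' Metric.closedBall (0 : E) 1 := by
  set D : ℝ → ℝ → E →ₗ[ℝ] E := fun a b =>
    a • (V.starProjection : E →ₗ[ℝ] E) + b • (Vᗮ.starProjection : E →ₗ[ℝ] E) with hD
  have hDa : ∀ a b z, D a b z = a • V.starProjection z + b • Vᗮ.starProjection z := by
    intro a b z; simp [hD]
  have hcomp : ∀ a b a' b' : ℝ, a * a' = 1 → b * b' = 1 → D a b ∘ₗ D a' b' = LinearMap.id := by
    intro a b a' b' ha hb
    ext z
    have m1 := V.starProjection_apply_mem z
    have m2 := Vᗮ.starProjection_apply_mem z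
    rw [LinearMap.comp_apply, hDa, hDa, PV_comb m1 m2, PW_comb m1 m2, smul_smul, smul_smul, ha, hb,
      one_smul, one_smul, V.starProjection_add_starProjection_orthogonal]
    rfl
  have sp : 0 < √p := sqrt_pos.2 hp
  have sq : 0 < √q := sqrt_pos.2 hq
  set A : E ≃ₗ[ℝ] E := LinearEquiv.ofLinearMap (D (√p)⁻¹ (√q)⁻¹) (D (√p) (√q))
    (hcomp _ _ _ _ (inv_mul_cancel₀ sp.ne') (inv_mul_cancel₀ sq.ne'))
    (hcomp _ _ _ _ (mul_inv_cancel₀ sp.ne') (mul_inv_cancel₀ sq.ne')) with hA
  refine ⟨A, ?_⟩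
  ext z
  rw [LinearEquiv.image_eq_preimage_symm]
  have h1 : A.symm z = √p • V.starProjection z + √q • Vᗮ.starProjection z := by
    rw [← hDa]; rfl
  have m1 := V.starProjection_apply_mem z
  have m2 := Vᗮ.starProjection_apply_mem z
  have h2 : ‖A.symm z‖ ^ 2 = p * ‖V.starProjection z‖ ^ 2 + q * ‖Vᗮ.starProjection z‖ ^ 2 := by
    rw [Submodule.norm_sq_eq_add_norm_sq_starProjection _ V, h1, PV_comb m1 m2, PW_comb m1 m2,
      norm_smul, norm_smul, mul_pow, mul_pow, Real.norm_eq_abs, Real.norm_eq_abs, sq_abs, sq_abs,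
      sq_sqrt hp.le, sq_sqrt hq.le]
  simp only [mem_preimage, mem_closedBall_zero_iff]
  change _ ≤ (1 : ℝ) ↔ _
  rw [← h2, sq_le_one_iff₀ (norm_nonneg _)]

theorem exists_unit (U : Submodule ℝ E) (hU : 0 < finrank ℝ U) : ∃ e ∈ U, ‖e‖ = 1 := by
  have : Nontrivial U := Module.finrank_pos_iff.1 hU
  obtain ⟨x, hx⟩ := exists_norm_eq U zero_le_one
  exact ⟨x, x.2, hx⟩

theorem main_of_two_le (K : Set E) (V : Submodule ℝ E) (hV : 2 ≤ finrank ℝ V) {d : ℝ}
    (hd : d = (finrank ℝ E : ℝ) - 1) (hK : IsCompact K) (hconv : Convex ℝ K)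
    (hint : (interior K).Nonempty) (hsym : ∀ x ∈ K, -x ∈ K)
    (hinv : ∀ x y, ‖V.starProjection x‖ = ‖V.starProjection y‖ →
      ‖Vᗮ.starProjection x‖ = ‖Vᗮ.starProjection y‖ → x ∈ K → y ∈ K)
    {c : ℝ} (hc : 0 < c)
    (hKc : K = c • {y : E | ∀ x ∈ {x : E |
      ‖x‖ ≤ (Measure.hausdorffMeasure d (K ∩ {z : E | inner ℝ x z = 0})).toReal},
      inner ℝ x y ≤ 1}) :
    ∃ A : E ≃ₗ[ℝ] E, K = A '' Metric.closedBall (0 : E) 1 := by
  have h0 : K ∈ 𝓝 (0 : E) := by
    obtain ⟨x, hx⟩ := hint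
    have := hconv.combo_interior_self_mem_interior hx (hsym x (interior_subset hx))
      (a := 1 / 2) (b := 1 / 2) (by norm_num) (by norm_num) (by norm_num)
    rw [smul_neg, add_neg_cancel] at this
    exact mem_interior_iff_mem_nhds.1 this
  have habs : Absorbent ℝ K := absorbent_nhds_zero h0
  obtain ⟨ε, hε, hball⟩ := Metric.mem_nhds_iff.1 h0
  obtain ⟨R, hR, hKR⟩ := hK.isBounded.subset_closedBall_lt 0 0
  have hmem : ∀ x, gauge K x ≤ 1 ↔ x ∈ K := fun x => by
    rw [gauge_le_one_iff_mem_closure hconv h0, hK.isClosed.closure_eq]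
  have hKg : K = {x | gauge K x ≤ 1} := by ext x; exact (hmem x).symm
  have G : GaugeData V (gauge K) R⁻¹ ε⁻¹ :=
    { cont := continuous_gauge hconv h0
      smul := fun r x => by
        rcases le_total 0 r with h | h
        · rw [gauge_smul_of_nonneg h, abs_of_nonneg h, smul_eq_mul]
        · rw [← gauge_neg hsym, ← neg_smul, gauge_smul_of_nonneg (neg_nonneg.2 h), abs_of_nonpos h,
            smul_eq_mul]
      add := gauge_add_le hconv habs
      c1pos := inv_pos.2 hR
      c2pos := inv_pos.2 hε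
      lower := fun x => by
        rw [← div_eq_inv_mul]; exact le_gauge_of_subset_closedBall habs hR.le hKR
      upper := fun x => by
        rw [← div_eq_inv_mul, le_div_iff₀ hε, mul_comm]; exact mul_gauge_le_norm hball
      inv := fun x y h1 h2 => by
        rw [gauge_def', gauge_def']
        congr 1
        ext r
        have k1 : ‖V.starProjection (r⁻¹ • x)‖ = ‖V.starProjection (r⁻¹ • y)‖ := by
          rw [map_smul, map_smul, norm_smul, norm_smul, h1]
        have k2 : ‖Vᗮ.starProjection (r⁻¹ • x)‖ = ‖Vᗮ.starProjection (r⁻¹ • y)‖ := by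
          rw [map_smul, map_smul, norm_smul, norm_smul, h2]
        exact ⟨fun h => ⟨h.1, hinv _ _ k1 k2 h.2⟩, fun h => ⟨h.1, hinv _ _ k1.symm k2.symm h.2⟩⟩ }
  have gpos : ∀ x : E, x ≠ 0 → 0 < gauge K x := fun x hx =>
    lt_of_lt_of_le (mul_pos G.c1pos (norm_pos_iff.2 hx)) (G.lower x)
  obtain ⟨e, he, ne⟩ := exists_unit V (by omega)
  have he0 : e ≠ 0 := by rintro rfl; simp at ne
  suffices h : ∃ p q : ℝ, 0 < p ∧ 0 < q ∧ ∀ z, gauge K z ^ 2 =
      p * ‖V.starProjection z‖ ^ 2 + q * ‖Vᗮ.starProjection z‖ ^ 2 by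
    obtain ⟨p, q, hp, hq, H⟩ := h
    obtain ⟨A, hA⟩ := ellipsoid_of V hp hq
    refine ⟨A, ?_⟩
    rw [← hA]
    ext z
    rw [← hmem, ← sq_le_one_iff₀ (gauge_nonneg z), H]
    rfl
  rcases Nat.eq_zero_or_pos (finrank ℝ Vᗮ) with hW | hW
  · have hbot : ∀ z, Vᗮ.starProjection z = 0 := fun z => by
      exact (Submodule.eq_bot_iff _).1 (Submodule.finrank_eq_zero.1 hW) _
        (Vᗮ.starProjection_apply_mem z)
    refine ⟨gauge K e ^ 2, 1, pow_pos (gpos e he0) 2, one_pos, fun z => ?_⟩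
    have : gauge K z = gauge K (‖V.starProjection z‖ • e) := by
      apply G.inv
      · rw [map_smul, Submodule.starProjection_eq_self_iff.2 he, norm_smul, ne]; simp
      · rw [hbot, hbot]
    rw [this, G.smul, hbot]
    simp [mul_pow, mul_comm]
  obtain ⟨f, hf, nf⟩ := exists_unit Vᗮ hW
  have hf0 : f ≠ 0 := by rintro rfl; simp at nf
  obtain ⟨e', he', ne'⟩ := exists_unit ((ℝ ∙ e)ᗮ ⊓ V) (by
    have h1 := Submodule.finrank_add_inf_finrank_orthogonal
      ((Submodule.span_singleton_le_iff_mem e V).2 he)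
    rw [finrank_span_singleton he0] at h1
    omega)
  have hee' : ⟪e, e'⟫_ℝ = 0 := Submodule.mem_orthogonal_singleton_iff_inner_right.1 he'.1
  have hdQ : d = finrank ℝ (ℝ ∙ f)ᗮ := by
    have h1 := Submodule.finrank_add_finrank_orthogonal (ℝ ∙ f)
    rw [finrank_span_singleton hf0] at h1
    rw [hd, ← h1]; push_cast; ring
  have hsec : ∀ (u : E) (t : ℝ), 0 < t → (Measure.hausdorffMeasure d
      (K ∩ {z : E | inner ℝ (t • u) z = 0})).toReal = sec d (gauge K) u := by
    intro u t ht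
    unfold sec
    rw [← hKg]
    congr 3
    ext z
    simp [real_inner_smul_left, ht.ne']
  have hpolar : ∀ z, z ∈ K ↔ ∀ x : E, ‖x‖ ≤ (Measure.hausdorffMeasure d
      (K ∩ {z : E | inner ℝ x z = 0})).toReal → ⟪x, z⟫_ℝ ≤ c := by
    intro z
    conv_lhs => rw [hKc, mem_smul_set_iff_inv_smul_mem₀ hc.ne']
    refine forall_congr' fun x => imp_congr Iff.rfl ?_
    rw [real_inner_smul_right, ← div_eq_inv_mul, div_le_one hc]
  suffices hh : ∃ lam : ℝ, 0 < lam ∧ ∀ z, gauge K z ^ 2 =
      gauge K f ^ 2 * (lam * ‖V.starProjection z‖ ^ 2 + ‖Vᗮ.starProjection z‖ ^ 2) by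
    obtain ⟨lam, hlam, H⟩ := hh
    exact ⟨gauge K f ^ 2 * lam, gauge K f ^ 2, mul_pos (pow_pos (gpos f hf0) 2) hlam,
      pow_pos (gpos f hf0) 2, fun z => by rw [H z]; ring⟩
  refine geo_core G he hf ne nf he'.2 ne' hee' hdQ hc (fun u w hu => ?_) (fun w r hw hr => ?_)
  · have hs0 : 0 ≤ sec d (gauge K) u := ENNReal.toReal_nonneg
    rcases hs0.eq_or_lt with hs | hs
    · rw [← hs, zero_mul]; exact mul_nonneg hc.le (gauge_nonneg w)
    by_cases hw : w = 0
    · subst hw; simp
    have hg := gpos w hw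
    have hwK : (gauge K w)⁻¹ • w ∈ K := by
      rw [← hmem, G.smul, abs_of_pos (inv_pos.2 hg), inv_mul_cancel₀ hg.ne']
    have := (hpolar _).1 hwK (sec d (gauge K) u • u) (by
      rw [hsec u _ hs, norm_smul, hu, mul_one, Real.norm_of_nonneg hs0])
    rw [real_inner_smul_left, real_inner_smul_right, ← mul_assoc, mul_comm _ (gauge K w)⁻¹,
      mul_assoc, ← div_eq_inv_mul, div_le_iff₀ hg] at this
    exact this
  · have hg := gpos w hw
    have hwK : (r / gauge K w) • w ∉ K := by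
      rw [← hmem, G.smul, abs_of_pos (div_pos (by linarith) hg), div_mul_cancel₀ _ hg.ne']
      linarith
    rw [hpolar] at hwK
    push Not at hwK
    obtain ⟨x, hx1, hx2⟩ := hwK
    have hx0 : x ≠ 0 := by
      rintro rfl
      simp at hx2
      linarith
    have hn : 0 < ‖x‖ := norm_pos_iff.2 hx0
    have hxu : x = ‖x‖ • (‖x‖⁻¹ • x) := by rw [smul_smul, mul_inv_cancel₀ hn.ne', one_smul]
    refine ⟨‖x‖⁻¹ • x, by rw [norm_smul, norm_inv, norm_norm, inv_mul_cancel₀ hn.ne'], ?_⟩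
    have k1 : ‖x‖ ≤ sec d (gauge K) (‖x‖⁻¹ • x) := by
      rw [← hsec _ _ hn, ← hxu]; exact hx1
    rw [real_inner_smul_right, div_mul_eq_mul_div, lt_div_iff₀ hg] at hx2
    have k2 : 0 < ⟪x, w⟫_ℝ := by
      have := mul_pos hc hg
      exact (mul_pos_iff_of_pos_left (by linarith)).1 (this.trans hx2)
    rw [real_inner_smul_left]
    refine hx2.le.trans (mul_le_mul_of_nonneg_left ?_ (by linarith))
    calc ⟪x, w⟫_ℝ = ‖x‖ * (‖x‖⁻¹ * ⟪x, w⟫_ℝ) := by field_simp
      _ ≤ _ := mul_le_mul_of_nonneg_right k1 (by positivity)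

theorem main (K : Set E) (V : Submodule ℝ E) (hn : 3 ≤ finrank ℝ E) {d : ℝ}
    (hd : d = (finrank ℝ E : ℝ) - 1) (hK : IsCompact K) (hconv : Convex ℝ K)
    (hint : (interior K).Nonempty) (hsym : ∀ x ∈ K, -x ∈ K)
    (hinv : ∀ x y, ‖V.starProjection x‖ = ‖V.starProjection y‖ →
      ‖Vᗮ.starProjection x‖ = ‖Vᗮ.starProjection y‖ → x ∈ K → y ∈ K)
    {c : ℝ} (hc : 0 < c)
    (hKc : K = c • {y : E | ∀ x ∈ {x : E |
      ‖x‖ ≤ (Measure.hausdorffMeasure d (K ∩ {z : E | inner ℝ x z = 0})).toReal},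
      inner ℝ x y ≤ 1}) :
    ∃ A : E ≃ₗ[ℝ] E, K = A '' Metric.closedBall (0 : E) 1 := by
  by_cases hV : 2 ≤ finrank ℝ V
  · exact main_of_two_le K V hV hd hK hconv hint hsym hinv hc hKc
  · have h1 := Submodule.finrank_add_finrank_orthogonal V
    have e : Vᗮᗮ.starProjection = V.starProjection := by
      rw [Submodule.starProjection_orthogonal' Vᗮ, Submodule.starProjection_orthogonal' V]
      simp
    exact main_of_two_le K Vᗮ (by omega) hd hK hconv hint hsym
      (fun x y h1 h2 => hinv x y (by rwa [e] at h2) h1) hc hKc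

theorem inv_of_iso (K : Set E) (V : Submodule ℝ E)
    (h : ∀ R : E ≃ₗᵢ[ℝ] E, (∀ v ∈ V, R v ∈ V) → ∀ x ∈ K, R x ∈ K) (x y : E)
    (h1 : ‖V.starProjection x‖ = ‖V.starProjection y‖)
    (h2 : ‖Vᗮ.starProjection x‖ = ‖Vᗮ.starProjection y‖) (hx : x ∈ K) : y ∈ K := by
  have a1 := V.starProjection_apply_mem x
  have a2 := V.starProjection_apply_mem y
  have b1 := Vᗮ.starProjection_apply_mem x
  have b2 := Vᗮ.starProjection_apply_mem y
  have hv := V.sub_mem a1 a2
  have hw := Vᗮ.sub_mem b1 b2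
  have k1 := h (ℝ ∙ (V.starProjection x - V.starProjection y))ᗮ.reflection (fun v hv' => by
    obtain ⟨t, ht⟩ := refl_sub (V.starProjection x - V.starProjection y) v
    rw [ht]; exact V.sub_mem hv' (V.smul_mem _ hv)) x hx
  have k2 := h (ℝ ∙ (Vᗮ.starProjection x - Vᗮ.starProjection y))ᗮ.reflection (fun v hv' => by
    rw [refl_fix (Submodule.inner_left_of_mem_orthogonal hv' hw)]; exact hv') _ k1
  have e1 : (ℝ ∙ (V.starProjection x - V.starProjection y))ᗮ.reflection x =
      V.starProjection y + Vᗮ.starProjection x := by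
    conv_lhs => arg 2; rw [← V.starProjection_add_starProjection_orthogonal x]
    rw [map_add, Submodule.reflection_sub h1,
      refl_fix (Submodule.inner_right_of_mem_orthogonal hv b1)]
  rw [e1, map_add, Submodule.reflection_sub h2,
    refl_fix (Submodule.inner_left_of_mem_orthogonal a2 hw),
    V.starProjection_add_starProjection_orthogonal] at k2
  exact k2

end Pool.Agent.MP_2a44fd_gt
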